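import Pool.Agent.Helper61.LG.Dl
import Pool.Agent.Helper61.LG.Xz
import Pool.Agent.Helper61.NZ.No
import Pool.Agent.Helper61.MG.Ge
import Pool.Agent.Helper76.EX.Fin
import Pool.Agent.Helper40.HW.Nf
import Pool.Agent.Helper40.HW.Cf

/-!
# Ground states of Weil's quadratic forms of L-functions

For a completed L-function `F` with centre `c` (times a polynomial if it has poles) and `a > 0`, Weil's
quadratic form `Q` of `F` on the smooth functions supported in `[-a, a]` is an integral of the logarithmic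
derivative of `F` over a line to the right of all zeros (it is the sum of `T g ρ * conj (T g (2c - conj ρ))`
over the zeros, `weil_form` below). We describe its ground states, show that `Q` is its bottom times the square
of the norm plus a sum of squares over the zeros of a ground state, and prove that every zero of `F` on the
line `Re s = c` is a limit of zeros of ground states. Hence the Riemann hypothesis for `F` (part (d) of the
problem) holds if and only if every zero of `F` is such a limit. This is proved for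

* all functions `F` with a functional equation (`IsCompleted`; no Euler product is needed);
* hence for `Λ(0; X, s)` for all `X` of dimension zero: products of the completed Dedekind zeta functions of
  arbitrary number fields;
* and for products of the completed L-functions of newforms: this gives `Λ(1; X, s)` for the modular curves
  `X = X_0(N)` (Eichler-Shimura), the quotients of their Jacobians, and (modularity) products of elliptic
  curves over `ℚ`.

For `X = Spec ℤ`, the Riemann zeta function, the theorem is effective. For `a = (log X) / 2` the form involves the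
prime powers up to `X` only. Its bottom is at most `exp (-(4 * π - η) * X)` for large `X`. For every `C < 4 * π` and all large `X`, if `Q` is nonnegative at this one level
`X`, then every zero of zeta of height at most `C * X` is within `e = exp (-δ * X / log X)` of a zero of the
transform of every ground state, and the total weight of the zeros with imaginary part in any interval (up to
this height) is the number of the zeros of zeta with imaginary part in this interval, up to a shift of the end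
points by `e` and an error `exp (-δ * X / (log X) ^ 2)`; and (d) holds for `Spec ℤ` if and only if this is so
for all large `X`. (The kernels of the test functions are those of `Pool.Agent.Helper76.EX`.)
-/

set_option autoImplicit false

open Complex Filter Topology NumberField UpperHalfPlane MatrixGroups CongruenceSubgroup MeasureTheory
open scoped ComplexConjugate ContDiff Polynomial

namespace Pool.Agent.Results.MP_7193be_nt.GroundStatesL

/-- `F` is the completion of `L`, with centre `c` and sign `ε`, multiplied with a polynomial: `L(s) → 1` for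
`Re s → ∞` uniformly in `Im s` (as for every Dirichlet series `∑ a(n) n^(-s)` with `a(1) = 1`); `F` is an
entire function of finite order, real for real `s`; for large `Re s`
`F(s) = ∏_i (s - ρ_i) · A^(s/2) · ∏_j Γ_ℝ(s + μ_j) · L(s)` with real numbers `A > 0`, `μ_j > -c`, at least one
of the latter; and `F(2c - s) = ε F(s)`, `ε = ±1`. -/
structure IsCompleted (c : ℝ) (ε : ℂ) (L F : ℂ → ℂ) : Prop where
  one : ∀ η : ℝ, 0 < η → ∃ R : ℝ, ∀ s : ℂ, R ≤ s.re → ‖L s - 1‖ ≤ η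
  entire : Differentiable ℂ F
  order : ∃ (a : ℕ) (B : ℝ), ∀ s : ℂ, ‖F s‖ ≤ Real.exp (B * (1 + ‖s‖) ^ a)
  real : ∀ s : ℂ, F (conj s) = conj (F s)
  gamma : ∃ (m k : ℕ) (μ : Fin m → ℝ) (ρ : Fin k → ℂ) (A σ : ℝ), 0 < m ∧ 0 < A ∧
    (∀ j, 0 < c + μ j) ∧ ∀ s : ℂ, σ < s.re →
      F s = (∏ i, (s - ρ i)) * ((A : ℂ) ^ (s / 2) * ∏ j, Gammaℝ (s + μ j)) * L s
  fe : ∀ s : ℂ, F (2 * c - s) = ε * F s
  sign : ε = 1 ∨ ε = -1

/-- The two-sided Laplace transform, normalised at the line `Re s = c`. -/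
noncomputable def T (c : ℝ) (g : ℝ → ℂ) (s : ℂ) : ℂ := ∫ x : ℝ, g x * cexp ((s - c) * x)

/-- The real part of the autocorrelation. -/
noncomputable def R (g : ℝ → ℂ) (u : ℝ) : ℂ := (((∫ y : ℝ, g y * conj (g (y - u))).re : ℝ) : ℂ)

/-- Weil's quadratic form of `F`, by the logarithmic derivative of `F` on the line `Re s = σ`. -/
noncomputable def Q (F : ℂ → ℂ) (c σ : ℝ) (g : ℝ → ℂ) : ℝ :=
  ((1 / Real.pi : ℂ) * ∫ y : ℝ, deriv F (σ + y * Complex.I) / F (σ + y * Complex.I) *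
    T c (R g) (σ + y * Complex.I)).re

/-- The smooth functions supported in `[-a, a]`. -/
def Test (a : ℝ) : Set (ℝ → ℂ) := {g | ContDiff ℝ ∞ g ∧ ∀ x, a < |x| → g x = 0}

/-- The values of the form at the test functions of norm one. -/
def Values (F : ℂ → ℂ) (c σ a : ℝ) : Set ℝ := {r | ∃ g ∈ Test a, ∫ x, ‖g x‖ ^ 2 = 1 ∧ r = Q F c σ g}

/-- The bottom of the spectrum. -/
noncomputable def bottom (F : ℂ → ℂ) (c σ a : ℝ) : ℝ := sInf (Values F c σ a)

/-- Ground states: the nonzero functions of `L²` supported in `[-a, a]` at which the bottom of the spectrum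
is attained, that is, which are limits of test functions `g n` with `Q (g n)` tending to
`bottom a * ‖φ‖²`. -/
def IsGround (F : ℂ → ℂ) (c σ a : ℝ) (φ : ℝ → ℂ) : Prop :=
  MemLp φ 2 (volume : Measure ℝ) ∧ (∀ x, a < |x| → φ x = 0) ∧ 0 < ∫ x, ‖φ x‖ ^ 2 ∧
    ∃ g : ℕ → ℝ → ℂ, (∀ n, g n ∈ Test a) ∧ Tendsto (fun n => ∫ x, ‖g n x - φ x‖ ^ 2) atTop (𝓝 0) ∧
      Tendsto (fun n => Q F c σ (g n)) atTop (𝓝 (bottom F c σ a * ∫ x, ‖φ x‖ ^ 2))

/-- The point `w` is the limit of zeros of the transforms of ground states, for every choice of the ground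
states. -/
def Approached (F : ℂ → ℂ) (c σ : ℝ) (w : ℂ) : Prop :=
  ∀ η : ℝ, 0 < η → ∃ A : ℝ, ∀ a : ℝ, A ≤ a → 0 < a → ∀ φ : ℝ → ℂ, IsGround F c σ a φ →
    ∃ s : ℂ, ‖s - w‖ < η ∧ T c φ s = 0

/-- The form is `bottom` times the square of the norm plus the sum of squares over the zeros of the transform
of the ground state `ψ`, which are simple and on the line `Re s = c`, with the positive weights `ν`. -/
def Represents (F : ℂ → ℂ) (c σ a : ℝ) (ψ : ℝ → ℂ) (ν : ℂ → ℝ) : Prop :=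
  IsGround F c σ a ψ ∧ (∀ s : ℂ, T c ψ s = 0 → s.re = c ∧ deriv (T c ψ) s ≠ 0 ∧ 0 < ν s) ∧
    ∀ g ∈ Test a, HasSum (fun s : {s : ℂ // T c ψ s = 0} => ν s * ‖T c g s‖ ^ 2)
      (Q F c σ g - bottom F c σ a * ∫ x, ‖g x‖ ^ 2)

/-- The description of the form and of its ground states. -/
def Describes (F : ℂ → ℂ) (c σ : ℝ) : Prop :=
  (∀ a : ℝ, 0 < a → BddBelow (Values F c σ a) ∧ ∃ (ψ : ℝ → ℂ) (d : ℕ) (ν : ℂ → ℝ), Represents F c σ a ψ ν ∧
    ∀ H : ℂ → ℂ, (∃ φ : ℝ → ℂ, IsGround F c σ a φ ∧ T c φ = H) ↔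
      ∃ p : ℂ[X], p ≠ 0 ∧ p.natDegree < d ∧ ∀ s, H s = p.eval s * T c ψ s) ∧
  (∀ ρ : ℂ, F ρ = 0 → ρ.re = c → Approached F c σ ρ) ∧
  ((∃ ρ : ℂ, F ρ = 0 ∧ ρ.re ≠ c) → ∀ w : ℂ, w.re = c → Approached F c σ w) ∧
  ((∀ ρ : ℂ, F ρ = 0 → ρ.re = c) ↔ ∀ ρ : ℂ, F ρ = 0 → Approached F c σ ρ)

/-- The number of the zeros of `F` with imaginary part in `[t, u]`, with multiplicities. -/
noncomputable def N (F : ℂ → ℂ) (t u : ℝ) : ℝ :=
  ∑' ρ : {ρ : ℂ // F ρ = 0},
    (Set.Icc t u).indicator (fun _ => (analyticOrderNatAt F (ρ : ℂ) : ℝ)) (ρ : ℂ).im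

/-- The total weight of the zeros of the transform of `ψ` with imaginary part in `[t, u]`. -/
noncomputable def Weight (c : ℝ) (ψ : ℝ → ℂ) (ν : ℂ → ℝ) (t u : ℝ) : ℝ :=
  ∑' s : {s : ℂ // T c ψ s = 0}, (Set.Icc t u).indicator (fun _ => ν s) (s : ℂ).im

/-- Every zero of `F` of height at most `C * X` is within `e = exp (-δ * X / log X)` of a zero, on the line
`Re s = c`, of the transform of every ground state for `a = (log X) / 2`; and the weights of every ground state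
count the zeros of `F` up to this height, up to a shift by `e` and an error `exp (-δ * X / (log X) ^ 2)`. -/
def Effective (F : ℂ → ℂ) (c σ C δ X : ℝ) : Prop :=
  (∀ ρ : ℂ, F ρ = 0 → |ρ.im| ≤ C * X → ∀ φ : ℝ → ℂ, IsGround F c σ (Real.log X / 2) φ →
    ∃ s : ℂ, T c φ s = 0 ∧ s.re = c ∧ ‖s - ρ‖ ≤ Real.exp (-(δ * X / Real.log X))) ∧
  ∀ (ψ : ℝ → ℂ) (ν : ℂ → ℝ), Represents F c σ (Real.log X / 2) ψ ν → ∀ t u : ℝ, -(C * X) ≤ t → u ≤ C * X →
    N F (t + Real.exp (-(δ * X / Real.log X))) (u - Real.exp (-(δ * X / Real.log X))) -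
        Real.exp (-(δ * X / Real.log X ^ 2)) ≤ Weight c ψ ν t u ∧
      Weight c ψ ν t u ≤ N F (t - Real.exp (-(δ * X / Real.log X))) (u + Real.exp (-(δ * X / Real.log X))) +
        Real.exp (-(δ * X / Real.log X ^ 2))

/-- `s (s - 1) |d_K|^(s/2) Γ_ℝ(s)^r₁ Γ_ℂ(s)^r₂ ζ_K(s)` -/
noncomputable def xiK (K : Type) [Field K] [NumberField K] (s : ℂ) : ℂ :=
  s * (s - 1) * ((|(discr K : ℝ)| : ℝ) : ℂ) ^ (s / 2) * Gammaℝ s ^ InfinitePlace.nrRealPlaces K *
    Gammaℂ s ^ InfinitePlace.nrComplexPlaces K * dedekindZeta K s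

/-- `f ∈ S_k(Γ₀(N))` has real Fourier coefficients, the first one being `1`, and is an eigenfunction of the
Fricke involution: `f(-1/(Nτ)) = ε (√N τ / i)^k f(τ)`, `ε = ±1`.  All newforms with trivial character have
these properties. -/
structure IsFrickeForm {N : ℕ} {k : ℤ} (f : CuspForm (Gamma0 N : Subgroup (GL (Fin 2) ℝ)) k) (ε : ℝ) :
    Prop where
  one : (qExpansion 1 f).coeff 1 = 1
  real : ∀ n, ((qExpansion 1 f).coeff n).im = 0
  sign : ε = 1 ∨ ε = -1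
  fricke : ∀ τ τ' : ℍ, (τ' : ℂ) * ((N : ℂ) * (τ : ℂ)) = -1 →
    f τ' = (ε : ℂ) * (((Real.sqrt N : ℝ) : ℂ) * (τ : ℂ) / Complex.I) ^ k * f τ

/-- `L(f, s) = ∑ a(n) n^(-s)` -/
noncomputable def LForm {N : ℕ} {k : ℤ} (f : CuspForm (Gamma0 N : Subgroup (GL (Fin 2) ℝ)) k) (s : ℂ) : ℂ :=
  ∑' n : ℕ, (qExpansion 1 f).coeff n * (n : ℂ) ^ (-s)

section proofs

open Pool.Agent.Helper40.HW Pool.Agent.Helper61 Pool.Agent.Helper61.W Pool.Agent.Helper61.W.GS
open Pool.Agent.Helper61.LG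

lemma IsCompleted.good {c : ℝ} {ε : ℂ} {L F : ℂ → ℂ} (h : IsCompleted c ε L F) :
    ∃ β : ℝ, Good c β L F ε := by
  obtain ⟨m, k, μ, ρ, A, σ, hm, hA, hμ, hval⟩ := h.gamma
  obtain ⟨R, hR⟩ := h.one (1 / 2) (by norm_num)
  set S : ℝ := ∑ i, ‖ρ i‖ with hS
  have hS0 : 0 ≤ S := Finset.sum_nonneg fun _ _ => norm_nonneg _
  set β : ℝ := max (1 / 2) (max (R - c) (max (σ - c) (S - c))) with hβ
  have b1 : 1 / 2 ≤ β := le_max_left _ _
  have b2 : R - c ≤ β := (le_max_left _ _).trans (le_max_right _ _)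
  have b3 : σ - c ≤ β := (le_max_left _ _).trans ((le_max_right _ _).trans (le_max_right _ _))
  have b4 : S - c ≤ β := (le_max_right _ _).trans ((le_max_right _ _).trans (le_max_right _ _))
  refine ⟨β, h.one, m, k, μ, ρ, A, hm, hA, b1, hμ, ?_, ?_, ?_, h.one _ (by norm_num), h.entire, ?_,
    h.real, h.order, h.fe, h.sign⟩
  · intro i
    have h1 : (ρ i).re ≤ ‖ρ i‖ := Complex.re_le_norm _
    have h2 : ‖ρ i‖ ≤ S :=
      Finset.single_le_sum (f := fun i => ‖ρ i‖) (fun _ _ => norm_nonneg _) (Finset.mem_univ i)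
    linarith
  · intro s hs h0
    have h1 := hR s (by linarith)
    rw [h0, zero_sub, norm_neg, norm_one] at h1
    norm_num at h1
  · refine ⟨2, fun s hs => ?_⟩
    have h1 := hR s (by linarith)
    calc ‖L s‖ = ‖(L s - 1) + 1‖ := by congr 1; ring
      _ ≤ ‖L s - 1‖ + ‖(1 : ℂ)‖ := norm_add_le _ _
      _ ≤ 1 / 2 + 1 := by rw [norm_one]; linarith
      _ ≤ 2 := by norm_num
  · intro s hs
    exact hval s (by linarith)

lemma IsCompleted.of_good {c β : ℝ} {ε : ℂ} {L F : ℂ → ℂ} (h : Good c β L F ε) :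
    IsCompleted c ε L F := by
  obtain ⟨t, m, k, μ, ρ, A, g⟩ := h
  exact ⟨t, g.diff, g.fin, g.conj, ⟨m, k, μ, ρ, A, c + β, g.m1, g.A0, g.μ0, g.eq⟩, g.fe, g.eps⟩

variable {m k : ℕ} {μ : Fin m → ℝ} {ρ : Fin k → ℂ} {A c β σ : ℝ} {D F : ℂ → ℂ} {ε : ℂ}

lemma T_eq (c : ℝ) (φ : ℝ → ℂ) (s : ℂ) : T c φ s = W.LT φ (s - c) := rfl

lemma T_add (c : ℝ) (φ : ℝ → ℂ) (z : ℂ) : T c φ (z + c) = W.LT φ z := by
  rw [T_eq, add_sub_cancel_right]

lemma Q_eq (h : LF μ ρ A c β D F ε) (t : Tn D) (hσ : c + β < σ) {a : ℝ} {g : ℝ → ℂ} (hg : g ∈ Test a) :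
    Q F c σ g = ((dat h t).Wf g g).re := by
  have hg' : g ∈ Ts a := hg
  rw [dat_form h t (κ := σ - c) (by linarith) hg']
  unfold Q
  congr 3
  funext y
  have e : (σ : ℂ) + y * Complex.I = c + (((σ - c : ℝ) : ℂ) + y * Complex.I) := by
    push_cast
    ring
  rw [← e]
  congr 1
  rw [T_eq]
  have e2 : (σ : ℂ) + y * Complex.I - c = ((σ - c : ℝ) : ℂ) + y * Complex.I := by
    push_cast
    ring
  rw [e2]
  rfl

/-- The form is the sum over the zeros. -/
theorem weil_form (h : LF μ ρ A c β D F ε) (t : Tn D) (hσ : c + β < σ) {a : ℝ} {g : ℝ → ℂ} (hg : g ∈ Test a) :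
    HasSum (fun s : {s : ℂ // F s = 0} =>
      (analyticOrderNatAt F (s : ℂ) : ℂ) * (T c g s * conj (T c g (2 * c - conj (s : ℂ))))) (Q F c σ g : ℂ) := by
  have hg' : g ∈ Ts a := hg
  have h1 := (GA.summable_wt (D := dat h t) (Ts.tf hg') (Ts.tf hg')).hasSum
  have e0 : ∑' z, (dat h t).wt g g z = (Q F c σ g : ℂ) := by
    have e1 : ∑' z, (dat h t).wt g g z = (dat h t).Wf g g := rfl
    rw [e1, Q_eq h t hσ hg]
    apply Complex.ext
    · rw [Complex.ofReal_re]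
    · rw [Complex.ofReal_im]
      exact GA.Wf_self_im
  rw [e0] at h1
  let e : Zt (fun z => F (c + z)) ≃ {s : ℂ // F s = 0} :=
    { toFun := fun z => ⟨c + z, z.2⟩
      invFun := fun s => ⟨s - c, by
        show F (c + (s - c)) = 0
        rw [add_sub_cancel]
        exact s.2⟩
      left_inv := fun z => Subtype.ext (by simp)
      right_inv := fun s => Subtype.ext (by simp) }
  rw [← e.hasSum_iff]
  refine Eq.mp (congrArg (fun f => HasSum f _) (funext fun z : Zt (fun z => F (c + z)) => ?_)) h1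
  have h2 : analyticOrderNatAt F (c + (z : ℂ)) = analyticOrderNatAt (fun z => F (c + z)) (z : ℂ) := by
    unfold analyticOrderNatAt
    have hd : deriv (fun z : ℂ => (c : ℂ) + z) (z : ℂ) ≠ 0 := by
      simp
    have h3 : analyticOrderAt (F ∘ fun z => (c : ℂ) + z) (z : ℂ) = analyticOrderAt F (c + (z : ℂ)) :=
      analyticOrderAt_comp_of_deriv_ne_zero (by fun_prop) hd
    rw [← h3]
    rfl
  show ((mt (fun z => F (c + z)) z : ℝ) : ℂ) * (W.LT g z * conj (W.LT g (-conj (z : ℂ)))) =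
    (analyticOrderNatAt F (c + (z : ℂ)) : ℂ) * (T c g (c + z) * conj (T c g (2 * c - conj (c + (z : ℂ)))))
  rw [h2, T_eq, T_eq]
  have e1 : (c : ℂ) + z - c = z := by ring
  have e2 : 2 * (c : ℂ) - conj (c + (z : ℂ)) - c = -conj (z : ℂ) := by
    rw [map_add, Complex.conj_ofReal]
    ring
  rw [e1, e2]
  unfold LG.mt
  push_cast
  rfl

lemma values_eq (h : LF μ ρ A c β D F ε) (t : Tn D) (hσ : c + β < σ) (a : ℝ) : Values F c σ a =
    {r : ℝ | ∃ g : ℝ → ℂ, g ∈ Ts a ∧ ∫ x, ‖g x‖ ^ 2 = 1 ∧ r = ((dat h t).Wf g g).re} := by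
  ext r
  constructor
  · rintro ⟨g, hg, h1, h2⟩
    exact ⟨g, hg, h1, by rw [h2, Q_eq h t hσ hg]⟩
  · rintro ⟨g, hg, h1, h2⟩
    exact ⟨g, hg, h1, by rw [h2, Q_eq h t hσ (a := a) hg]⟩

lemma bottom_eq (h : LF μ ρ A c β D F ε) (t : Tn D) (hσ : c + β < σ) (a : ℝ) :
    bottom F c σ a = (dat h t).low a := by
  unfold bottom GA.Dat.low
  rw [values_eq h t hσ]

lemma isGround_iff (h : LF μ ρ A c β D F ε) (t : Tn D) (hσ : c + β < σ) (a : ℝ) (φ : ℝ → ℂ) :
    IsGround F c σ a φ ↔ (dat h t).IsG a φ := by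
  unfold IsGround GA.Dat.IsG
  rw [bottom_eq h t hσ]
  constructor
  · rintro ⟨h1, h2, h3, g, hg, h4, h5⟩
    exact ⟨h1, h2, h3, g, hg, h4, h5.congr fun n => Q_eq h t hσ (hg n)⟩
  · rintro ⟨h1, h2, h3, g, hg, h4, h5⟩
    exact ⟨h1, h2, h3, g, hg, h4, h5.congr fun n => (Q_eq h t hσ (a := a) (hg n)).symm⟩

lemma approached_of (h : LF μ ρ A c β D F ε) (t : Tn D) (hσ : c + β < σ) {w : ℂ}
    (h' : ∀ η : ℝ, 0 < η → ∃ A : ℝ, ∀ a : ℝ, A ≤ a → 0 < a → ∀ φ : ℝ → ℂ,
      (dat h t).IsG a φ → ∃ z : ℂ, ‖z - (w - c)‖ < η ∧ W.LT φ z = 0) : Approached F c σ w := by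
  intro η hη
  obtain ⟨A, hA⟩ := h' η hη
  refine ⟨A, fun a haA ha φ hφ => ?_⟩
  rw [isGround_iff h t hσ] at hφ
  obtain ⟨z, h1, h2⟩ := hA a haA ha φ hφ
  refine ⟨z + c, ?_, ?_⟩
  · have e : z + c - w = z - (w - c) := by ring
    rw [e]
    exact h1
  · rw [T_add]
    exact h2

/-- the zeros in the two normalisations -/
noncomputable def zeroEquiv (c : ℝ) (ψ : ℝ → ℂ) : {z : ℂ // W.LT ψ z = 0} ≃ {s : ℂ // T c ψ s = 0} where
  toFun z := ⟨z + c, by rw [T_add]; exact z.2⟩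
  invFun s := ⟨s - c, s.2⟩
  left_inv z := Subtype.ext (by simp)
  right_inv s := Subtype.ext (by simp)

lemma structure_of (h : LF μ ρ A c β D F ε) (t : Tn D) (hσ : c + β < σ) {a : ℝ} (ha : 0 < a) :
    BddBelow (Values F c σ a) ∧
    ∃ (ψ : ℝ → ℂ) (d : ℕ) (ν : ℂ → ℝ), Represents F c σ a ψ ν ∧
      ∀ H : ℂ → ℂ, (∃ φ : ℝ → ℂ, IsGround F c σ a φ ∧ T c φ = H) ↔
        ∃ p : ℂ[X], p ≠ 0 ∧ p.natDegree < d ∧ ∀ s, H s = p.eval s * T c ψ s := by
  refine ⟨by rw [values_eq h t hσ]; exact GA.low_bdd ha, ?_⟩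
  obtain ⟨ψ, d, ν, hψ, hz, hs, hp⟩ := GA.structure_fun (dat h t) ha
  refine ⟨ψ, d, fun s => ν (s - c), ⟨(isGround_iff h t hσ a ψ).mpr hψ, ?_, ?_⟩, ?_⟩
  · intro s h0
    obtain ⟨h1, h2, h3⟩ := hz (s - c) h0
    refine ⟨?_, ?_, h3⟩
    · have : (s - (c : ℂ)).re = s.re - c := by simp
      rw [this] at h1
      linarith
    · have e : T c ψ = fun s => W.LT ψ (s - c) := rfl
      rw [e, deriv_comp_sub_const (f := W.LT ψ)]
      exact h2
  · intro g hg
    have h1 := hs g hg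
    rw [Q_eq h t hσ hg, bottom_eq h t hσ, ← (zeroEquiv c ψ).hasSum_iff]
    refine Eq.mp (congrArg (fun f => HasSum f _) ?_) h1
    funext z
    show ν z * ‖W.LT g z‖ ^ 2 = ν ((z : ℂ) + c - c) * ‖T c g ((z : ℂ) + c)‖ ^ 2
    rw [T_add, add_sub_cancel_right]
  · intro H
    constructor
    · rintro ⟨φ, hφ, rfl⟩
      rw [isGround_iff h t hσ] at hφ
      obtain ⟨p, h1, h2, h3⟩ := (hp (W.LT φ)).mp ⟨φ, hφ, rfl⟩
      refine ⟨p.comp (Polynomial.X - Polynomial.C (c : ℂ)), ?_, ?_, fun s => ?_⟩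
      · intro h4
        apply h1
        have h5 := congrArg (fun q : ℂ[X] => q.comp (Polynomial.X + Polynomial.C (c : ℂ))) h4
        simp only [Polynomial.zero_comp] at h5
        rw [Polynomial.comp_assoc, Polynomial.sub_comp, Polynomial.X_comp, Polynomial.C_comp, add_sub_cancel_right,
          Polynomial.comp_X] at h5
        exact h5
      · rw [Polynomial.natDegree_comp, Polynomial.natDegree_X_sub_C, mul_one]
        exact h2
      · rw [T_eq, T_eq, h3, Polynomial.eval_comp, Polynomial.eval_sub, Polynomial.eval_X, Polynomial.eval_C]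
    · rintro ⟨p, h1, h2, h3⟩
      obtain ⟨φ, hφ, h4⟩ := (hp (fun z => (p.comp (Polynomial.X + Polynomial.C (c : ℂ))).eval z * W.LT ψ z)).mpr
        ⟨p.comp (Polynomial.X + Polynomial.C (c : ℂ)), by
          intro h4
          apply h1
          have h5 := congrArg (fun q : ℂ[X] => q.comp (Polynomial.X - Polynomial.C (c : ℂ))) h4
          simp only [Polynomial.zero_comp] at h5
          rw [Polynomial.comp_assoc, Polynomial.add_comp, Polynomial.X_comp, Polynomial.C_comp, sub_add_cancel,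
            Polynomial.comp_X] at h5
          exact h5, by
          rw [Polynomial.natDegree_comp, Polynomial.natDegree_X_add_C, mul_one]
          exact h2, fun z => rfl⟩
      refine ⟨φ, (isGround_iff h t hσ a φ).mpr hφ, funext fun s => ?_⟩
      rw [T_eq, h4, h3, T_eq]
      simp only
      rw [Polynomial.eval_comp, Polynomial.eval_add, Polynomial.eval_X, Polynomial.eval_C, sub_add_cancel]

theorem describes (h : LF μ ρ A c β D F ε) (t : Tn D) (hσ : c + β < σ) : Describes F c σ := by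
  obtain ⟨_, happ, hoff⟩ := GA.main (dat h t)
  have hcrit : ∀ ρ : ℂ, F ρ = 0 → ρ.re = c → Approached F c σ ρ := by
    intro ρ h1 h2
    set ρ' : Zt (fun z => F (c + z)) := ⟨ρ - c, by
      show F (c + (ρ - c)) = 0
      rw [add_sub_cancel]
      exact h1⟩ with hρ'
    exact approached_of h t hσ fun η hη => happ ρ' (by
      show (ρ - (c : ℂ)).re = 0
      simp [h2]) η hη
  refine ⟨fun a ha => structure_of h t hσ ha, hcrit, ?_, ?_⟩
  · rintro ⟨ρ, h1, h2⟩ w hw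
    refine approached_of h t hσ fun η hη => hoff ⟨⟨ρ - c, by
      show F (c + (ρ - c)) = 0
      rw [add_sub_cancel]
      exact h1⟩, ?_⟩ (w - c) (by simp [hw]) η hη
    show (ρ - (c : ℂ)).re ≠ 0
    intro h3
    apply h2
    have : (ρ - (c : ℂ)).re = ρ.re - c := by simp
    rw [this] at h3
    linarith
  · constructor
    · intro hR ρ h1
      exact hcrit ρ h1 (hR ρ h1)
    · intro h' ρ h1
      by_contra hne
      have hne' : ρ.re - c ≠ 0 := sub_ne_zero.mpr hne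
      obtain ⟨A, hA⟩ := h' ρ h1 |ρ.re - c| (abs_pos.mpr hne')
      have hap : 0 < max A 1 := lt_of_lt_of_le one_pos (le_max_right _ _)
      obtain ⟨_, ψ, d, ν, ⟨hψ, hr, _⟩, _⟩ := structure_of h t hσ hap
      obtain ⟨s, h2, h3⟩ := hA (max A 1) (le_max_left _ _) hap ψ hψ
      have h4 := (hr s h3).1
      have h5 := Complex.abs_re_le_norm (s - ρ)
      rw [Complex.sub_re, h4, abs_sub_comm] at h5
      exact absurd h2 (not_lt.mpr h5)

theorem good_describes (h : Good c β D F ε) (hσ : c + β < σ) : Describes F c σ := by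
  obtain ⟨t, m, k, μ, ρ, A, g⟩ := h
  exact describes g t hσ

/-! ### The Riemann zeta function -/

section zeta

open Pool.Agent.V11271.LI

lemma Q_zeta (hσ : 1 < σ) {a : ℝ} {g : ℝ → ℂ} (hg : g ∈ Test a) :
    Q Xi (1 / 2) σ g = (GA.zetaDat.Wf g g).re := by
  rw [Q_eq Xi_LF zeta_tn (by linarith) hg, Wf_eq]

lemma bottom_zeta (hσ : 1 < σ) (a : ℝ) : bottom Xi (1 / 2) σ a = GA.zetaDat.low a := by
  rw [bottom_eq Xi_LF zeta_tn (by linarith), low_eq]

lemma traceF_zeta (hσ : 1 < σ) {a : ℝ} {ψ : ℝ → ℂ} {ν : ℂ → ℝ} (h : Represents Xi (1 / 2) σ a ψ ν) :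
    GR.TraceF GA.zetaDat a (fun s : {s : ℂ // T (1 / 2) ψ s = 0} => (s : ℂ) - ((1 / 2 : ℝ) : ℂ))
      (fun s => ν s) where
  re := fun s => by
    have := (h.2.1 s s.2).1
    rw [Complex.sub_re, Complex.ofReal_re, this, sub_self]
  nn := fun s => (h.2.1 s s.2).2.2.le
  sum := fun g => by
    have h1 := h.2.2 g g.2
    rw [Q_zeta hσ g.2, bottom_zeta hσ] at h1
    rw [GS.norm_toL]
    exact h1

lemma N_eq (t u : ℝ) : NZ.nn t u = N Xi t u := by
  unfold NZ.nn N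
  let e : Zr ≃ {ρ : ℂ // Xi ρ = 0} :=
    { toFun := fun ρ => ⟨ρ, (Xi_eq_zero_iff _).mpr ρ.2⟩
      invFun := fun ρ => ⟨ρ, (Xi_eq_zero_iff _).mp ρ.2⟩
      left_inv := fun ρ => rfl
      right_inv := fun ρ => rfl }
  rw [← e.tsum_eq]
  refine tsum_congr fun ρ => ?_
  have h0 : ((e ρ : {ρ : ℂ // Xi ρ = 0}) : ℂ) = (ρ : ℂ) := rfl
  rw [h0]
  by_cases h : t ≤ (zz ρ).im ∧ (zz ρ).im ≤ u
  · have h' : (ρ : ℂ).im ∈ Set.Icc t u := by
      rw [← zz_im]
      exact h
    rw [if_pos h, Set.indicator_of_mem h', order_eq]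
    rfl
  · have h' : (ρ : ℂ).im ∉ Set.Icc t u := by
      rw [← zz_im]
      exact h
    rw [if_neg h, Set.indicator_of_notMem h']

lemma N_mono {t t' u u' : ℝ} (ht : t' ≤ t) (hu : u ≤ u') : N Xi t u ≤ N Xi t' u' := by
  rw [← N_eq, ← N_eq]
  unfold NZ.nn
  refine (NZ.nn_summable _ _).tsum_le_tsum (fun ρ => ?_) (NZ.nn_summable _ _)
  have hm := mm_one_le ρ
  split_ifs with h1 h2 h2
  · exact le_rfl
  · exact absurd ⟨ht.trans h1.1, h1.2.trans hu⟩ h2
  · linarith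
  · exact le_rfl

lemma low_nonneg_of (hσ : 1 < σ) {a : ℝ} (ha : 0 < a) (h : ∀ g ∈ Test a, 0 ≤ Q Xi (1 / 2) σ g) :
    0 ≤ GA.zetaDat.low a := by
  unfold GA.Dat.low
  refine le_csInf (GA.low_nonempty (D := GA.zetaDat) ha) ?_
  rintro _ ⟨g, hg, h1, rfl⟩
  have h2 : g ∈ Test a := hg
  have h3 := h g h2
  rwa [Q_zeta hσ h2] at h3

lemma log_pos' {X : ℝ} (hX : 1 < X) : 0 < Real.log X / 2 := by
  have := Real.log_pos hX
  linarith

/-- the zeros and the weights -/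
theorem effective_of (hσ : 1 < σ) {C : ℝ} (hc0 : 0 < C) (hc : C < 4 * Real.pi) : ∃ δ X₀ : ℝ, 0 < δ ∧ 1 < X₀ ∧
    ∀ X : ℝ, X₀ ≤ X → (∀ g ∈ Test (Real.log X / 2), 0 ≤ Q Xi (1 / 2) σ g) →
      Effective Xi (1 / 2) σ C δ X := by
  obtain ⟨δ1, X1, hδ1, hX1, h1⟩ := NZ.zeta_ground hc0 hc
  obtain ⟨δ2, X2, hδ2, hX2, h2⟩ := NZ.zeta_count hc0 hc
  set δ := min δ1 δ2 with hδ
  have d1 : δ ≤ δ1 := min_le_left _ _
  have d2 : δ ≤ δ2 := min_le_right _ _
  refine ⟨δ, max X1 X2, lt_min hδ1 hδ2, by linarith [le_max_left X1 X2], fun X hX hQ => ?_⟩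
  have hXa : X1 ≤ X := (le_max_left _ _).trans hX
  have hXb : X2 ≤ X := (le_max_right _ _).trans hX
  have hX1' : 1 < X := by linarith
  have hX0 : 0 < X := by linarith
  have hL : 0 < Real.log X := Real.log_pos hX1'
  have ha := log_pos' hX1'
  have hl := low_nonneg_of hσ ha hQ
  have hmono : ∀ {δ' : ℝ}, δ ≤ δ' → Real.exp (-(δ' * X / Real.log X)) ≤ Real.exp (-(δ * X / Real.log X)) := by
    intro δ' h
    apply Real.exp_le_exp.mpr
    have : δ * X / Real.log X ≤ δ' * X / Real.log X := by gcongr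
    linarith
  have hmono2 : Real.exp (-(δ2 * X / Real.log X ^ 2)) ≤ Real.exp (-(δ * X / Real.log X ^ 2)) := by
    apply Real.exp_le_exp.mpr
    have : δ * X / Real.log X ^ 2 ≤ δ2 * X / Real.log X ^ 2 := by gcongr
    linarith
  refine ⟨fun ρ hρ hi φ hφ => ?_, fun ψ ν hrep t u ht hu => ?_⟩
  · obtain ⟨_, ψ, d, ν, hrep, hF⟩ := structure_of Xi_LF zeta_tn (σ := σ) (by linarith) ha
    obtain ⟨p, hp0, hp1, hp2⟩ := (hF (T (1 / 2) φ)).mp ⟨φ, hφ, rfl⟩
    have hz := (Xi_eq_zero_iff ρ).mp hρ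
    obtain ⟨s, hs⟩ := (h1 X hXa hl ⟨ρ, hz⟩ (by rw [zz_im]; exact hi)).1 _ _ _ (traceF_zeta hσ hrep)
    refine ⟨(s : ℂ), by rw [hp2, s.2, mul_zero], (hrep.2.1 s s.2).1, ?_⟩
    have e : (s : ℂ) - ((1 / 2 : ℝ) : ℂ) - zz ⟨ρ, hz⟩ = (s : ℂ) - ρ := by
      unfold zz
      push_cast
      ring
    rw [e] at hs
    exact hs.trans (hmono d1)
  · obtain ⟨k1, k2⟩ := h2 X hXb hl _ _ _ (traceF_zeta hσ hrep) t u ht hu
    have e : (∑' s : {s : ℂ // T (1 / 2) ψ s = 0}, if t ≤ ((s : ℂ) - ((1 / 2 : ℝ) : ℂ)).im ∧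
        ((s : ℂ) - ((1 / 2 : ℝ) : ℂ)).im ≤ u then ν s else 0) = Weight (1 / 2) ψ ν t u := by
      unfold Weight
      refine tsum_congr fun s => ?_
      have e : ((s : ℂ) - ((1 / 2 : ℝ) : ℂ)).im = (s : ℂ).im := by
        rw [Complex.sub_im, Complex.ofReal_im, sub_zero]
      rw [e]
      by_cases h : t ≤ (s : ℂ).im ∧ (s : ℂ).im ≤ u
      · rw [if_pos h, Set.indicator_of_mem (s := Set.Icc t u) h]
      · rw [if_neg h, Set.indicator_of_notMem (s := Set.Icc t u) h]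
    rw [e, N_eq] at k1 k2
    have m2 := hmono d2
    have n1 := N_mono (t := t + Real.exp (-(δ * X / Real.log X))) (t' := t + Real.exp (-(δ2 * X / Real.log X)))
      (u := u - Real.exp (-(δ * X / Real.log X))) (u' := u - Real.exp (-(δ2 * X / Real.log X)))
      (by linarith) (by linarith)
    have n2 := N_mono (t := t - Real.exp (-(δ2 * X / Real.log X))) (t' := t - Real.exp (-(δ * X / Real.log X)))
      (u := u + Real.exp (-(δ2 * X / Real.log X))) (u' := u + Real.exp (-(δ * X / Real.log X)))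
      (by linarith) (by linarith)
    constructor
    · linarith
    · linarith

/-- the upper bound of the lowest eigenvalue -/
theorem bottom_small (hσ : 1 < σ) {η : ℝ} (hη : 0 < η) : ∃ X₀ : ℝ, 1 < X₀ ∧ ∀ X : ℝ, X₀ ≤ X →
    bottom Xi (1 / 2) σ (Real.log X / 2) ≤ Real.exp (-((4 * Real.pi - η) * X)) := by
  obtain ⟨X0, hX0, h⟩ := Helper76.EX.bottomA hη
  refine ⟨X0, hX0, fun X hX => ?_⟩
  obtain ⟨g, hg, hn, hle⟩ := h X hX
  have ha := log_pos' (by linarith : 1 < X)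
  have hg' : g ∈ Test (Real.log X / 2) := ⟨hg.1, fun x hx => hg.2 x fun hx2 => by
    have := abs_le.mpr ⟨hx2.1, hx2.2⟩
    linarith⟩
  have h1 : bottom Xi (1 / 2) σ (Real.log X / 2) ≤ Q Xi (1 / 2) σ g :=
    csInf_le (structure_of Xi_LF zeta_tn (σ := σ) (by linarith) ha).1 ⟨g, hg', hn, rfl⟩
  have hg2 : g ∈ MG.Ge.Test (Real.log X / 2) := hg'
  have h2 : Q Xi (1 / 2) σ g = Helper76.EX.Ar g := by
    rw [Q_zeta hσ hg']
    exact (MG.Ge.Q_eq hg2).symm
  rw [← h2] at hle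
  exact h1.trans ((le_abs_self _).trans hle)

lemma tendsto_bound {δ : ℝ} (hδ : 0 < δ) : Tendsto (fun X : ℝ => Real.exp (-(δ * X / Real.log X))) atTop (𝓝 0) := by
  have h0 := Real.tendsto_pow_log_div_mul_add_atTop 1 0 1 one_ne_zero
  have h3 : Tendsto (fun x : ℝ => Real.log x / x) atTop (𝓝[>] 0) := by
    rw [tendsto_nhdsWithin_iff]
    refine ⟨by simpa using h0, ?_⟩
    filter_upwards [eventually_gt_atTop 1] with x hx
    exact div_pos (Real.log_pos hx) (by linarith)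
  have h4 := (h3.inv_tendsto_nhdsGT_zero.const_mul_atTop hδ)
  have h5 : Tendsto (fun X : ℝ => δ * X / Real.log X) atTop atTop := by
    refine h4.congr fun x => ?_
    simp only [Pi.inv_apply, inv_div]
    ring
  exact Real.tendsto_exp_neg_atTop_nhds_zero.comp h5

lemma line_of_effective (hσ : 1 < σ) {C δ X0 : ℝ} (hc : 0 < C) (hδ : 0 < δ)
    (h : ∀ X : ℝ, X0 ≤ X → Effective Xi (1 / 2) σ C δ X) : ∀ ρ : ℂ, Xi ρ = 0 → ρ.re = 1 / 2 := by
  intro ρ hρ
  by_contra hne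
  have hd : 0 < |ρ.re - 1 / 2| := abs_pos.mpr (sub_ne_zero.mpr hne)
  obtain ⟨X, hX1, hX2⟩ := (((tendsto_bound hδ).eventually_lt_const hd).and
    (eventually_ge_atTop (max (max X0 2) (|ρ.im| / C)))).exists
  have hXX : X0 ≤ X := ((le_max_left _ _).trans (le_max_left _ _)).trans hX2
  have hX3 : 2 ≤ X := ((le_max_right _ _).trans (le_max_left _ _)).trans hX2
  have hXi : |ρ.im| ≤ C * X := by
    have := (le_max_right _ _).trans hX2
    rw [div_le_iff₀ hc] at this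
    linarith
  obtain ⟨_, ψ, d, ν, ⟨hψ, _, _⟩, _⟩ := structure_of Xi_LF zeta_tn (σ := σ) (by linarith)
    (log_pos' (by linarith : 1 < X))
  obtain ⟨s, _, h3, h4⟩ := (h X hXX).1 ρ hρ hXi ψ hψ
  have h5 := Complex.abs_re_le_norm (s - ρ)
  rw [Complex.sub_re, h3] at h5
  have h6 : |(1 : ℝ) / 2 - ρ.re| = |ρ.re - 1 / 2| := abs_sub_comm _ _
  rw [h6] at h5
  linarith

lemma Q_nonneg_of_line (hσ : 1 < σ) (h : ∀ ρ : ℂ, Xi ρ = 0 → ρ.re = 1 / 2) {a : ℝ} (ha : 0 < a) :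
    ∀ g ∈ Test a, 0 ≤ Q Xi (1 / 2) σ g := by
  intro g hg
  rw [Q_zeta hσ hg]
  refine NZ.low_le_all ha (GA.low_nonneg (D := GA.zetaDat) (fun (ρ : Zr) => ?_) ha) hg
  have h1 := h ρ.1 ((Xi_eq_zero_iff _).mpr ρ.2)
  show (zz ρ).re = 0
  rw [zz_re, h1, sub_self]

end zeta

end proofs

open Pool.Agent.Helper40.HW in
/-- **Ground states of Weil's forms of completed L-functions.** -/
theorem result :
    -- all functions with a functional equation
    (∀ (c : ℝ) (ε : ℂ) (L F : ℂ → ℂ), IsCompleted c ε L F → ∃ σ₀ : ℝ, ∀ σ : ℝ, σ₀ < σ → Describes F c σ) ∧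
    -- the schemes of dimension zero
    (∀ (ι : Type) [Fintype ι] [Nonempty ι] (K : ι → Type) [∀ j, Field (K j)]
      [∀ j, NumberField (K j)], ∃ F : ℂ → ℂ,
        IsCompleted (1 / 2) 1 (fun s => ∏ j, dedekindZeta (K j) s) F ∧
        (∀ s : ℂ, 1 < s.re → F s = ∏ j, xiK (K j) s) ∧ ∀ σ : ℝ, 1 < σ → Describes F (1 / 2) σ) ∧
    -- newforms
    (∀ (ι : Type) [Fintype ι] [Nonempty ι] (k : ℤ), 1 ≤ k → ∀ (N : ι → ℕ) [∀ j, NeZero (N j)]
      (f : (j : ι) → CuspForm (Gamma0 (N j) : Subgroup (GL (Fin 2) ℝ)) k) (ε : ι → ℝ),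
      (∀ j, IsFrickeForm (f j) (ε j)) → ∃ F : ℂ → ℂ,
        IsCompleted (k / 2) (∏ j, (ε j : ℂ)) (fun s => ∏ j, LForm (f j) s) F ∧
        (∀ s : ℂ, (k : ℝ) / 2 + 1 < s.re →
          F s = ∏ j, ((N j : ℂ) ^ (s / 2) * Gammaℂ s * LForm (f j) s)) ∧
        ∃ σ₀ : ℝ, ∀ σ : ℝ, σ₀ < σ → Describes F (k / 2) σ) ∧
    -- `X = Spec ℤ`: the Riemann zeta function
    (∀ F : ℂ → ℂ, Differentiable ℂ F →
      (∀ s : ℂ, 1 < s.re → F s = s * (s - 1) * Gammaℝ s * riemannZeta s) →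
      IsCompleted (1 / 2) 1 riemannZeta F ∧ ∀ σ : ℝ, 1 < σ → Describes F (1 / 2) σ ∧
        (∀ η : ℝ, 0 < η → ∃ X₁ : ℝ, 1 < X₁ ∧ ∀ X : ℝ, X₁ ≤ X →
          bottom F (1 / 2) σ (Real.log X / 2) ≤ Real.exp (-((4 * Real.pi - η) * X))) ∧
        (∀ C : ℝ, 0 < C → C < 4 * Real.pi → ∃ δ X₀ : ℝ, 0 < δ ∧ 1 < X₀ ∧ ∀ X : ℝ, X₀ ≤ X →
          (∀ g ∈ Test (Real.log X / 2), 0 ≤ Q F (1 / 2) σ g) → Effective F (1 / 2) σ C δ X) ∧
        ((∀ ρ : ℂ, F ρ = 0 → ρ.re = 1 / 2) ↔ ∀ C : ℝ, 0 < C → C < 4 * Real.pi → ∃ δ X₀ : ℝ, 0 < δ ∧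
          ∀ X : ℝ, X₀ ≤ X → Effective F (1 / 2) σ C δ X)) := by
  refine ⟨fun c ε L F h => ?_, ?_, ?_, fun F hF hval => ?_⟩
  · obtain ⟨β, hβ⟩ := h.good
    exact ⟨c + β, fun σ hσ => good_describes hβ hσ⟩
  · intro ι _ _ K _ _
    choose F hF1 hF2 using fun j => nf_good (K j)
    have hg := Good.prod (c := 1 / 2) (β := 1 / 2) Finset.univ Finset.univ_nonempty
      (fun j => dedekindZeta (K j)) F (fun _ => 1) (fun j _ => hF1 j)
    rw [Finset.prod_const_one] at hg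
    have hc := IsCompleted.of_good hg
    refine ⟨_, hc, fun s hs => ?_, fun σ hσ => ?_⟩
    · exact Finset.prod_congr rfl fun j _ => hF2 j s hs
    · exact good_describes hg (by linarith)
  · intro ι _ _ k hk N _ f ε hf
    choose β F hF1 hF2 using fun j => cf_good hk (f j) (ε j) (hf j).one (hf j).real (hf j).sign
      (hf j).fricke
    obtain ⟨b, hb⟩ := (Set.finite_range β).bddAbove
    have hg := Good.prod (c := k / 2) (β := b) Finset.univ Finset.univ_nonempty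
      (fun j => LForm (f j)) F (fun j => (ε j : ℂ)) (fun j _ => (hF1 j).mono (hb ⟨j, rfl⟩))
    have hc := IsCompleted.of_good hg
    exact ⟨_, hc, fun s hs => Finset.prod_congr rfl fun j _ => (hF2 j s hs).2,
      k / 2 + b, fun σ hσ => good_describes hg hσ⟩
  · obtain rfl := Pool.Agent.Helper61.LG.eq_Xi hF hval
    have hg : Good (1 / 2) (1 / 2) riemannZeta Pool.Agent.Helper61.W.Xi 1 :=
      ⟨Pool.Agent.Helper61.LG.zeta_tn, _, _, _, _, _, Pool.Agent.Helper61.LG.Xi_LF⟩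
    refine ⟨IsCompleted.of_good hg, fun σ hσ => ⟨good_describes hg (by linarith),
      fun η hη => bottom_small hσ hη, fun C h1 h2 => effective_of hσ h1 h2, fun hR C h1 h2 => ?_, fun h => ?_⟩⟩
    · obtain ⟨δ, X0, hδ, hX0, h⟩ := effective_of hσ h1 h2
      exact ⟨δ, X0, hδ, fun X hX => h X hX (Q_nonneg_of_line hσ hR (log_pos' (by linarith)))⟩
    · obtain ⟨δ, X0, hδ, h1⟩ := h 1 one_pos (by linarith [Real.pi_gt_three])
      exact line_of_effective hσ one_pos hδ h1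

end Pool.Agent.Results.MP_7193be_nt.GroundStatesL
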