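import Pool.Agent.Helper40.HF.O
import Pool.Agent.Helper40.HF.P

/-!
# De Bruijn-Newman constants of L-functions tend to zero with the conductor

Let `Λ` be a completed L-function with centre `c`, multiplied with a polynomial if it has poles, and let
`Λ_t(w) = ∫ Λ(w + x) exp(-x²/4t) dx`, `t > 0`, be the solution of the heat equation `∂_t u = ∂_w² u` with initial
value `Λ` (up to the factor `(4πt)^(-1/2)`). De Bruijn: if all zeros of `Λ_t` are on the line `Re w = c`, this remains
so for all later times, and it is so for `t ≥ 1/8` if the zeros of `Λ` are in a strip of width one. The generalized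
Riemann Hypothesis (part (d) of the problem) is the statement for `t = 0`; the infimum of the times `t` at which all
zeros are on the line is the de Bruijn-Newman constant of `Λ` (in the usual normalisation the time is `4t`).

We prove that there is an **absolute** constant `C` such that for all completed L-functions, of any degree, self-dual
or not, and all `t > 0`, all zeros `w` of `Λ_t` with `t log q(Im w) ≥ C` are simple and on the line, where `q(T)` is the
analytic conductor at the height `T`. In particular (`q(T) ≥ 3^m A`, where `m` is the degree and `A` the conductor) all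
zeros of `Λ_t` are simple and on the line for `t ≥ C / log (3^m A)`: the de Bruijn-Newman constants tend to zero with
the conductor, and with the degree, uniformly in all L-functions. For every `t > 0` the Riemann Hypothesis at the time
`t` holds for all but finitely many number fields, primitive Dirichlet characters, newforms.

Proof (modules `Pool.Agent.Helper40.HF`): the contour of `Λ_t` is moved through the saddle point, a fixed point of
`z ↦ 2t (Λ'/Λ)(w + z)`, and the functional equation writes `Λ_t(u + iv)` as `E(u) + ε conj E(-u)`; the two parts are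
compared by means of estimates for `Λ'/Λ` to the right of the critical strip which are uniform in all parameters and
proportional to the degree, and of the convexity bound in the strip.
-/

set_option autoImplicit false

open Complex Filter Topology NumberField UpperHalfPlane MatrixGroups CongruenceSubgroup
open scoped ComplexConjugate

namespace Pool.Agent.Results.MP_7193be_nt.HeatFlowConductor

/-- `∫ F(w + x) exp(-x²/4t) dx`, the heat flow of `F` at the time `t` -/
noncomputable def heat (F : ℂ → ℂ) (t : ℝ) (w : ℂ) : ℂ :=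
  ∫ x : ℝ, F (w + x) * Complex.exp (-((x : ℂ) ^ 2) / (4 * t))

/-- All zeros `w` of the heat flow of `F`, at the time `t > 0`, with `t log q(Im w) ≥ C` are simple and on the line
`Re w = c`. -/
def OnLine (C c : ℝ) (q : ℝ → ℝ) (F : ℂ → ℂ) : Prop :=
  ∀ t : ℝ, 0 < t → ∀ w : ℂ, C ≤ t * Real.log (q w.im) → heat F t w = 0 →
    w.re = c ∧ deriv (heat F t) w ≠ 0

/-- `L(s) = ∏_p ∏_(j < m) (1 - α_(p,j) p^(-s))⁻¹` for `Re s > c + 1`, with `|α_(p,j)| ≤ p^c`. (For `L(i; X, s)` with all
Euler factors `c = (i+1)/2`, `m` is the `i`-th Betti number of `X` and `|α_(p,j)| ≤ p^(i/2)`. For the standard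
L-functions of unitary cuspidal representations of `GL_m` `c = 1/2`, and the bound is that of Jacquet and Shalika.) -/
def IsEuler (m : ℕ) (c : ℝ) (L : ℂ → ℂ) : Prop :=
  ∃ α : Nat.Primes → Fin m → ℂ, (∀ p j, ‖α p j‖ ≤ ((p : ℕ) : ℝ) ^ c) ∧
    ∀ s : ℂ, c + 1 < s.re →
      HasProd (fun p : Nat.Primes => ∏ j, (1 - α p j * ((p : ℕ) : ℂ) ^ (-s))⁻¹) (L s)

/-- `F` is the completion of the Euler product `L` of degree `m`, with centre `c`, multiplied with the polynomial
`∏ (s - ρ_i)` of degree `k ≤ 2m`: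
`F(s) = ∏_i (s - ρ_i) · A^(s/2) · ∏_(j < m) Γ_ℝ(s + μ_j) · L(s)` for `Re s > c + 1`, with `A ≥ 1`, `Re μ_j > -c`; `F` is
an entire function of finite order in vertical strips, and `F(2c - conj s) = ε conj F(s)`, `|ε| = 1`. -/
structure IsCompleted {m k : ℕ} (c A : ℝ) (μ : Fin m → ℂ) (ρ : Fin k → ℂ) (ε : ℂ) (L F : ℂ → ℂ) :
    Prop where
  degree : 0 < m
  poles : k ≤ 2 * m
  euler : IsEuler m c L
  entire : Differentiable ℂ F
  order : ∀ σ : ℝ, ∃ (a : ℕ) (B : ℝ), ∀ s : ℂ, |s.re| ≤ σ → ‖F s‖ ≤ Real.exp (B * (1 + |s.im|) ^ a)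
  one_le : 1 ≤ A
  gamma : ∀ j, 0 < c + (μ j).re
  roots : ∀ i, (ρ i).re ≤ c + 1
  value : ∀ s : ℂ, c + 1 < s.re →
    F s = (∏ i, (s - ρ i)) * ((A : ℂ) ^ (s / 2) * ∏ j, Gammaℝ (s + μ j)) * L s
  fe : ∀ s : ℂ, F (2 * c - conj s) = ε * conj (F s)
  sign : ‖ε‖ = 1

/-- the analytic conductor at the height `T` -/
noncomputable def conductor {m : ℕ} (c A : ℝ) (μ : Fin m → ℂ) (T : ℝ) : ℝ :=
  A * ∏ j, (‖(c : ℂ) + T * Complex.I + μ j‖ + 3)

/-- `s (s - 1) |d_K|^(s/2) Γ_ℝ(s)^r₁ Γ_ℂ(s)^r₂ ζ_K(s)` -/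
noncomputable def xiK (K : Type) [Field K] [NumberField K] (s : ℂ) : ℂ :=
  s * (s - 1) * ((|(discr K : ℝ)| : ℝ) : ℂ) ^ (s / 2) * Gammaℝ s ^ InfinitePlace.nrRealPlaces K *
    Gammaℂ s ^ InfinitePlace.nrComplexPlaces K * dedekindZeta K s

/-- `f ∈ S_k(Γ₀(N))` has real Fourier coefficients `a(n)`, `a(1) = 1`, `|a(n)| ≤ n^((k+1)/2)`, and is an
eigenfunction of the Fricke involution: `f(-1/(Nτ)) = ε (√N τ / i)^k f(τ)`, `ε = ±1`. All newforms with trivial
character have these properties (Deligne: `|a(n)| ≤ d(n) n^((k-1)/2)`). -/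
structure IsFrickeForm {N : ℕ} {k : ℤ} (f : CuspForm (Gamma0 N : Subgroup (GL (Fin 2) ℝ)) k) (ε : ℝ) :
    Prop where
  one : (qExpansion 1 f).coeff 1 = 1
  real : ∀ n, ((qExpansion 1 f).coeff n).im = 0
  bound : ∀ n : ℕ, 1 ≤ n → ‖(qExpansion 1 f).coeff n‖ ≤ (n : ℝ) ^ (((k : ℝ) + 1) / 2)
  sign : ε = 1 ∨ ε = -1
  fricke : ∀ τ τ' : ℍ, (τ' : ℂ) * ((N : ℂ) * (τ : ℂ)) = -1 →
    f τ' = (ε : ℂ) * (((Real.sqrt N : ℝ) : ℂ) * (τ : ℂ) / Complex.I) ^ k * f τ

/-- `L(f, s) = ∑ a(n) n^(-s)` -/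
noncomputable def LForm {N : ℕ} {k : ℤ} (f : CuspForm (Gamma0 N : Subgroup (GL (Fin 2) ℝ)) k) (s : ℂ) : ℂ :=
  ∑' n : ℕ, (qExpansion 1 f).coeff n * (n : ℂ) ^ (-s)

open Pool.Agent.Helper40.HF

lemma IsCompleted.good {m k : ℕ} {c A : ℝ} {μ : Fin m → ℂ} {ρ : Fin k → ℂ} {ε : ℂ} {L F : ℂ → ℂ}
    (h : IsCompleted c A μ ρ ε L F) : Good 2 kE c (conductor c A μ) L F := by
  have hA := h.one_le
  refine ⟨fun t => ?_, m, k, A, μ, ρ, ⟨h.degree, h.poles, by norm_num, kE_nonneg, hA, h.gamma,
    fun i => (h.roots i).trans (by linarith), h.entire, h.order, fun s hs => h.value s (by linarith),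
    ?_, ε, h.sign, h.fe⟩, fun t => le_rfl⟩
  · unfold conductor
    refine mul_pos (by linarith) (Finset.prod_pos fun j _ => ?_)
    positivity
  · have he : Pool.Agent.Helper40.HF.IsEuler m c L := h.euler
    obtain ⟨g, hg⟩ := he.bd
    exact ⟨g, fun s hs => hg s hs⟩

/-- **Zeros of the heat flow of completed L-functions.** -/
theorem result : ∃ C : ℝ,
    -- all completed L-functions
    (∀ (m k : ℕ) (c A : ℝ) (μ : Fin m → ℂ) (ρ : Fin k → ℂ) (ε : ℂ) (L F : ℂ → ℂ),
      IsCompleted c A μ ρ ε L F → OnLine C c (conductor c A μ) F) ∧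
    -- the schemes of dimension zero: finite products of Dedekind zeta functions
    (∀ (ι : Type) [Fintype ι] [Nonempty ι] (K : ι → Type) [∀ j, Field (K j)] [∀ j, NumberField (K j)],
      ∃ F : ℂ → ℂ, Differentiable ℂ F ∧ (∀ s : ℂ, 1 < s.re → F s = ∏ j, xiK (K j) s) ∧
        OnLine C (1 / 2)
          (fun T => ∏ j, (|(discr (K j) : ℝ)| * (|T| + 3) ^ Module.finrank ℚ (K j))) F) ∧
    -- primitive Dirichlet characters
    (∀ (q : ℕ) [NeZero q] (χ : DirichletCharacter ℂ q), 1 < q → χ.IsPrimitive →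
      OnLine C (1 / 2) (fun T => q * (|T| + 3))
        (fun s => (q : ℂ) ^ (s / 2) * DirichletCharacter.completedLFunction χ s)) ∧
    -- cusp forms
    (∀ (N : ℕ) [NeZero N] (k : ℤ) (f : CuspForm (Gamma0 N : Subgroup (GL (Fin 2) ℝ)) k) (ε : ℝ),
      1 ≤ k → IsFrickeForm f ε → ∃ F : ℂ → ℂ, Differentiable ℂ F ∧
        (∀ s : ℂ, (k : ℝ) / 2 + 1 < s.re → F s = (N : ℂ) ^ (s / 2) * Gammaℂ s * LForm f s) ∧
        OnLine C (k / 2) (fun T => N * (k + |T| + 3)) F) := by
  obtain ⟨C1, H1⟩ := Good.flow 2 kE (by norm_num) kE_nonneg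
  obtain ⟨C2, H2⟩ := Good.flow (3 / 2) kN (by norm_num) kN_nonneg
  obtain ⟨C3, H3⟩ := Good.flow (3 / 2) kE (by norm_num) kE_nonneg
  obtain ⟨C4, H4⟩ := Good.flow (7 / 2) 1 (by norm_num) zero_le_one
  set C : ℝ := max (max C1 C2) (max C3 C4) with hC
  have c1 : C1 ≤ C := (le_max_left _ _).trans (le_max_left _ _)
  have c2 : C2 ≤ C := (le_max_right _ _).trans (le_max_left _ _)
  have c3 : C3 ≤ C := (le_max_left _ _).trans (le_max_right _ _)
  have c4 : C4 ≤ C := (le_max_right _ _).trans (le_max_right _ _)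
  refine ⟨C, ?_, ?_, ?_, ?_⟩
  · intro m k c A μ ρ ε L F h t ht w hw h0
    exact H1 c _ L F h.good t ht w (c1.trans hw) h0
  · intro ι _ _ K _ _
    choose F hF hd hv using fun j => nf_good (K j)
    refine ⟨∏ j, F j, ?_, ?_, ?_⟩
    · exact Differentiable.finsetProd fun j _ => hd j
    · intro s hs
      rw [Finset.prod_apply]
      exact Finset.prod_congr rfl fun j _ => hv j s hs
    · intro t ht w hw h0
      have hg := Good.prod Finset.univ Finset.univ_nonempty (fun j => hF j)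
      refine H2 _ _ _ _ hg t ht w (c2.trans ?_) h0
      rw [Finset.prod_apply]
      exact hw
  · intro q _ χ hq hχ t ht w hw h0
    exact H3 _ _ _ _ (dir_good hq hχ) t ht w (c3.trans hw) h0
  · intro N _ k f ε hk h
    obtain ⟨F, hF, hd, hv⟩ := cf_good hk f ε h.one h.real h.bound h.sign h.fricke
    exact ⟨F, hd, hv, fun t ht w hw h0 => H4 _ _ _ _ hF t ht w (c4.trans hw) h0⟩

end Pool.Agent.Results.MP_7193be_nt.HeatFlowConductor
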