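import Pool.Agent.Helper40.HW.Nf
import Pool.Agent.Helper40.HW.Cf

/-!
# Jensen polynomials of the completed L-functions of degree exponentially large in the shift

Pólya and Jensen: let `Λ` be a completed L-function with `Λ(2c - s) = ± Λ(s)`, real for real `s`, multiplied
with a polynomial if it has poles, and write `Λ(c + z) = z^δ ∑ γ(n)/n! z^(2n)`, `δ ∈ {0, 1}`.  All zeros of
`Λ` lie on the line `Re s = c` (part (d) of the problem) if and only if all zeros of all Jensen polynomials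
`J^{d,n}(x) = ∑_j binom(d,j) γ(n+j) x^j` are real and not positive.

We prove this for all `n ≥ C log d`, for

* all functions `Λ` with a functional equation (`IsCompleted`; no Euler product is needed);
* hence, unconditionally, for `Λ(0; X, s)` for all `X` of dimension zero: products of the completed Dedekind
  zeta functions of arbitrary number fields;
* and for products of the completed L-functions of newforms: this gives `Λ(1; X, s)` for the modular curves
  `X = X_0(N)` (Eichler-Shimura), the quotients of their Jacobians, and (modularity) products of elliptic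
  curves over `ℚ`.
-/

set_option autoImplicit false

open Complex Filter Topology NumberField UpperHalfPlane MatrixGroups CongruenceSubgroup
open scoped ComplexConjugate

namespace Pool.Agent.Results.MP_7193be_nt.JensenLogL

/-- `γ(n) = n! / (2n+δ)! F^(2n+δ)(c)`, the coefficients in `F(c + z) = z^δ ∑ γ(n) / n! z^(2n)`. -/
noncomputable def gam (F : ℂ → ℂ) (c : ℝ) (δ n : ℕ) : ℂ :=
  (n.factorial : ℂ) / ((2 * n + δ).factorial : ℂ) * iteratedDeriv (2 * n + δ) F c

/-- The Jensen polynomial of degree `d` and shift `n`. -/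
noncomputable def J (F : ℂ → ℂ) (c : ℝ) (δ d n : ℕ) (x : ℂ) : ℂ :=
  ∑ j ∈ Finset.range (d + 1), (d.choose j : ℂ) * gam F c δ (n + j) * x ^ j

/-- For a constant `C` all zeros of the Jensen polynomials of degree `d ≥ 2` and shift `n ≥ C log d` are
real and negative. -/
def Hyperbolic (F : ℂ → ℂ) (c : ℝ) (δ : ℕ) : Prop :=
  ∃ C : ℝ, 0 < C ∧ ∀ d n : ℕ, 2 ≤ d → C * Real.log d ≤ n →
    ∀ x : ℂ, J F c δ d n x = 0 → x.im = 0 ∧ x.re < 0

/-- `F` is the completion of `L`, with centre `c` and sign `ε`, multiplied with a polynomial: `L(s) → 1` for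
`Re s → ∞` uniformly in `Im s` (as for every Dirichlet series `∑ a(n) n^(-s)` with `a(1) = 1`); `F` is an
entire function of finite order, real for real `s`; for large `Re s`
`F(s) = ∏_i (s - ρ_i) · A^(s/2) · ∏_j Γ_ℝ(s + μ_j) · L(s)` with real numbers `A > 0`, `μ_j > -c`, at least one
of the latter; and `F(2c - s) = ε F(s)`, `ε = ±1`. -/
structure IsCompleted (c : ℝ) (ε : ℂ) (L F : ℂ → ℂ) : Prop where
  one : ∀ η : ℝ, 0 < η → ∃ R : ℝ, ∀ s : ℂ, R ≤ s.re → ‖L s - 1‖ ≤ η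
  entire : Differentiable ℂ F
  order : ∃ (a : ℕ) (B : ℝ), ∀ s : ℂ, ‖F s‖ ≤ Real.exp (B * (1 + ‖s‖) ^ a)
  real : ∀ s : ℂ, F (conj s) = conj (F s)
  gamma : ∃ (m k : ℕ) (μ : Fin m → ℝ) (ρ : Fin k → ℂ) (A σ : ℝ), 0 < m ∧ 0 < A ∧
    (∀ j, 0 < c + μ j) ∧ ∀ s : ℂ, σ < s.re →
      F s = (∏ i, (s - ρ i)) * ((A : ℂ) ^ (s / 2) * ∏ j, Gammaℝ (s + μ j)) * L s
  fe : ∀ s : ℂ, F (2 * c - s) = ε * F s
  sign : ε = 1 ∨ ε = -1

/-- The exponent `δ`: `0` for the sign `1` and `1` for the sign `-1`. -/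
noncomputable def par (ε : ℂ) : ℕ := open Classical in if ε = 1 then 0 else 1

/-- `s (s - 1) |d_K|^(s/2) Γ_ℝ(s)^r₁ Γ_ℂ(s)^r₂ ζ_K(s)` -/
noncomputable def xiK (K : Type) [Field K] [NumberField K] (s : ℂ) : ℂ :=
  s * (s - 1) * ((|(discr K : ℝ)| : ℝ) : ℂ) ^ (s / 2) * Gammaℝ s ^ InfinitePlace.nrRealPlaces K *
    Gammaℂ s ^ InfinitePlace.nrComplexPlaces K * dedekindZeta K s

/-- `f ∈ S_k(Γ₀(N))` has real Fourier coefficients, the first one being `1`, and is an eigenfunction of the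
Fricke involution: `f(-1/(Nτ)) = ε (√N τ / i)^k f(τ)`, `ε = ±1`.  All newforms with trivial character have
these properties. -/
structure IsFrickeForm {N : ℕ} {k : ℤ} (f : CuspForm (Gamma0 N : Subgroup (GL (Fin 2) ℝ)) k) (ε : ℝ) :
    Prop where
  one : (qExpansion 1 f).coeff 1 = 1
  real : ∀ n, ((qExpansion 1 f).coeff n).im = 0
  sign : ε = 1 ∨ ε = -1
  fricke : ∀ τ τ' : ℍ, (τ' : ℂ) * ((N : ℂ) * (τ : ℂ)) = -1 →
    f τ' = (ε : ℂ) * (((Real.sqrt N : ℝ) : ℂ) * (τ : ℂ) / Complex.I) ^ k * f τ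

/-- `L(f, s) = ∑ a(n) n^(-s)` -/
noncomputable def LForm {N : ℕ} {k : ℤ} (f : CuspForm (Gamma0 N : Subgroup (GL (Fin 2) ℝ)) k) (s : ℂ) : ℂ :=
  ∑' n : ℕ, (qExpansion 1 f).coeff n * (n : ℂ) ^ (-s)

open Pool.Agent.Helper40.HW

lemma IsCompleted.good {c : ℝ} {ε : ℂ} {L F : ℂ → ℂ} (h : IsCompleted c ε L F) :
    ∃ β : ℝ, Good c β L F ε := by
  obtain ⟨m, k, μ, ρ, A, σ, hm, hA, hμ, hval⟩ := h.gamma
  obtain ⟨R, hR⟩ := h.one (1 / 2) (by norm_num)
  set S : ℝ := ∑ i, ‖ρ i‖ with hS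
  have hS0 : 0 ≤ S := Finset.sum_nonneg fun _ _ => norm_nonneg _
  set β : ℝ := max (1 / 2) (max (R - c) (max (σ - c) (S - c))) with hβ
  have b1 : 1 / 2 ≤ β := le_max_left _ _
  have b2 : R - c ≤ β := (le_max_left _ _).trans (le_max_right _ _)
  have b3 : σ - c ≤ β := (le_max_left _ _).trans ((le_max_right _ _).trans (le_max_right _ _))
  have b4 : S - c ≤ β := (le_max_right _ _).trans ((le_max_right _ _).trans (le_max_right _ _))
  refine ⟨β, h.one, m, k, μ, ρ, A, hm, hA, b1, hμ, ?_, ?_, ?_, h.one _ (by norm_num), h.entire, ?_,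
    h.real, h.order, h.fe, h.sign⟩
  · intro i
    have h1 : (ρ i).re ≤ ‖ρ i‖ := Complex.re_le_norm _
    have h2 : ‖ρ i‖ ≤ S :=
      Finset.single_le_sum (f := fun i => ‖ρ i‖) (fun _ _ => norm_nonneg _) (Finset.mem_univ i)
    linarith
  · intro s hs h0
    have h1 := hR s (by linarith)
    rw [h0, zero_sub, norm_neg, norm_one] at h1
    norm_num at h1
  · refine ⟨2, fun s hs => ?_⟩
    have h1 := hR s (by linarith)
    calc ‖L s‖ = ‖(L s - 1) + 1‖ := by congr 1; ring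
      _ ≤ ‖L s - 1‖ + ‖(1 : ℂ)‖ := norm_add_le _ _
      _ ≤ 1 / 2 + 1 := by rw [norm_one]; linarith
      _ ≤ 2 := by norm_num
  · intro s hs
    exact hval s (by linarith)

lemma IsCompleted.of_good {c β : ℝ} {ε : ℂ} {L F : ℂ → ℂ} (h : Good c β L F ε) :
    IsCompleted c ε L F := by
  obtain ⟨t, m, k, μ, ρ, A, g⟩ := h
  exact ⟨t, g.diff, g.fin, g.conj, ⟨m, k, μ, ρ, A, c + β, g.m1, g.A0, g.μ0, g.eq⟩, g.fe, g.eps⟩

/-- the general theorem -/
theorem IsCompleted.hyperbolic {c : ℝ} {ε : ℂ} {L F : ℂ → ℂ} (h : IsCompleted c ε L F) :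
    Hyperbolic F c (par ε) := by
  obtain ⟨β, hg⟩ := h.good
  have hδ : (par ε = 0 ∧ ε = 1) ∨ (par ε = 1 ∧ ε = -1) := by
    rcases h.sign with h1 | h1
    · left
      exact ⟨if_pos h1, h1⟩
    · right
      refine ⟨if_neg ?_, h1⟩
      rw [h1]
      norm_num
  obtain ⟨C, hC, hmain⟩ := hg.jensen hδ
  exact ⟨C, hC, fun d n hd hn x hx => hmain d n hd hn x hx⟩

/-- **Jensen polynomials of completed L-functions.** -/
theorem result :
    -- all functions with a functional equation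
    (∀ (c : ℝ) (ε : ℂ) (L F : ℂ → ℂ), IsCompleted c ε L F → Hyperbolic F c (par ε)) ∧
    -- the schemes of dimension zero
    (∀ (ι : Type) [Fintype ι] [Nonempty ι] (K : ι → Type) [∀ j, Field (K j)]
      [∀ j, NumberField (K j)], ∃ F : ℂ → ℂ,
        IsCompleted (1 / 2) 1 (fun s => ∏ j, dedekindZeta (K j) s) F ∧
        (∀ s : ℂ, 1 < s.re → F s = ∏ j, xiK (K j) s) ∧ Hyperbolic F (1 / 2) 0) ∧
    -- newforms
    (∀ (ι : Type) [Fintype ι] [Nonempty ι] (k : ℤ), 1 ≤ k → ∀ (N : ι → ℕ) [∀ j, NeZero (N j)]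
      (f : (j : ι) → CuspForm (Gamma0 (N j) : Subgroup (GL (Fin 2) ℝ)) k) (ε : ι → ℝ),
      (∀ j, IsFrickeForm (f j) (ε j)) → ∃ F : ℂ → ℂ,
        IsCompleted (k / 2) (∏ j, (ε j : ℂ)) (fun s => ∏ j, LForm (f j) s) F ∧
        (∀ s : ℂ, (k : ℝ) / 2 + 1 < s.re →
          F s = ∏ j, ((N j : ℂ) ^ (s / 2) * Gammaℂ s * LForm (f j) s)) ∧
        Hyperbolic F (k / 2) (par (∏ j, (ε j : ℂ)))) := by
  refine ⟨fun c ε L F h => h.hyperbolic, ?_, ?_⟩
  · intro ι _ _ K _ _
    choose F hF1 hF2 using fun j => nf_good (K j)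
    have hg := Good.prod (c := 1 / 2) (β := 1 / 2) Finset.univ Finset.univ_nonempty
      (fun j => dedekindZeta (K j)) F (fun _ => 1) (fun j _ => hF1 j)
    rw [Finset.prod_const_one] at hg
    have hc := IsCompleted.of_good hg
    refine ⟨_, hc, fun s hs => ?_, ?_⟩
    · exact Finset.prod_congr rfl fun j _ => hF2 j s hs
    · have := hc.hyperbolic
      rwa [show par 1 = 0 from if_pos rfl] at this
  · intro ι _ _ k hk N _ f ε hf
    choose β F hF1 hF2 using fun j => cf_good hk (f j) (ε j) (hf j).one (hf j).real (hf j).sign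
      (hf j).fricke
    obtain ⟨b, hb⟩ := (Set.finite_range β).bddAbove
    have hg := Good.prod (c := k / 2) (β := b) Finset.univ Finset.univ_nonempty
      (fun j => LForm (f j)) F (fun j => (ε j : ℂ)) (fun j _ => (hF1 j).mono (hb ⟨j, rfl⟩))
    have hc := IsCompleted.of_good hg
    exact ⟨_, hc, fun s hs => Finset.prod_congr rfl fun j _ => (hF2 j s hs).2, hc.hyperbolic⟩

end Pool.Agent.Results.MP_7193be_nt.JensenLogL
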