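import Pool.Agent.Helper68.UL.NfC
import Pool.Agent.Helper68.LF.Sharp
import Pool.Agent.Helper36.AL.W5
import Pool.Agent.Helper75.AL.All

/-!
# Laguerre inequalities, zeros and size of completed L-functions, uniformly in the analytic conductor

Let `Λ` be a completed L-function with centre `c`, real on the real axis, `Λ(2c - s) = ± Λ(s)`, multiplied with a
polynomial if it has poles. The squared modulus `|Λ(c + u + it)|²` is an even function of `u`; let `L_n(t)` be
`(2n)!` times the coefficient of `u^(2n)`. All zeros of `Λ` are on the line `Re s = c` (part (d) of the problem) if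
and only if `L_n(t) ≥ 0` for all `n` and all real `t` (Jensen, Csordas and Varga).

Let `q(t)` be the analytic conductor of `Λ` at the height `t`. Near the height `t` consider three quantities:
the least `b` such that all zeros have `|Re s - c| ≤ b`; the least `κ` such that `L_n ≥ 0` for all
`n ≥ κ log q(t)`; the least `a` such that `|L(c + it)|` is at most about `q(t)^a`. We prove
`2 max(κ, a) ≤ b ≤ 2κ + 2a` and `b ≤ K κ` with an absolute constant `K`, in windows of bounded size at every height,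
with constants which depend only on the degree and the number of poles, for all `Λ` with a tempered Euler product and
a functional equation and for the zeta functions of all number fields of given degree. So the Laguerre inequalities of
the orders `n ≥ κ log q(t)` alone decide the position of the zeros up to the factor `K`, and exactly (`b = 2κ`) where
`Λ` satisfies the Lindelöf bound. Moreover `L_n(t) > 0` for all `n ≥ (1/4 + δ) log q(t) + C` and all `t`, so (d) is
equivalent to the Laguerre inequalities below a quarter of the logarithm of the conductor.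
-/

set_option autoImplicit false

open Complex Filter Topology NumberField
open scoped ComplexConjugate

namespace Pool.Agent.Results.MP_7193be_nt.LaguerreConductor

/-- `L_n(t)`: the derivative of order `2n` of `u ↦ |F(c + u + it)|²` at `0` -/
noncomputable def Lag (F : ℂ → ℂ) (c : ℝ) (n : ℕ) (t : ℝ) : ℝ :=
  iteratedDeriv (2 * n) (fun u : ℝ => ‖F (c + u + t * I)‖ ^ 2) 0

/-- `L(s) = ∏_p ∏_(j < m) (1 - α_(p,j) p^(-s))⁻¹` for `Re s > w + 1`, with `|α_(p,j)| ≤ p^w`. For `L(i; X, s)` with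
all Euler factors, `m` is the `i`-th Betti number of `X` and `w = i/2`. -/
def IsEuler (m : ℕ) (w : ℝ) (L : ℂ → ℂ) : Prop :=
  ∃ α : Nat.Primes → Fin m → ℂ, (∀ p j, ‖α p j‖ ≤ ((p : ℕ) : ℝ) ^ w) ∧
    ∀ s : ℂ, w + 1 < s.re →
      HasProd (fun p : Nat.Primes => ∏ j, (1 - α p j * ((p : ℕ) : ℂ) ^ (-s))⁻¹) (L s)

/-- `F` is the completion of the tempered Euler product `L` of degree `m`, with centre `c = w + 1/2`, multiplied with
the polynomial `∏ (s - ρ_i)` of degree `k`:
`F(s) = ∏_i (s - ρ_i) · A^(s/2) · ∏_(j < m) Γ_ℝ(s + μ_j) · L(s)` with `A ≥ 1` and real `μ_j > -c`; `F` is an entire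
function of finite order, real for real `s`, and `F(2c - s) = ε F(s)`, `ε = ±1`. -/
structure IsCompleted {m k : ℕ} (w A : ℝ) (μ : Fin m → ℝ) (ρ : Fin k → ℂ) (ε : ℂ) (L F : ℂ → ℂ) :
    Prop where
  degree : 0 < m
  euler : IsEuler m w L
  entire : Differentiable ℂ F
  order : ∃ (a : ℕ) (B : ℝ), ∀ s : ℂ, ‖F s‖ ≤ Real.exp (B * (1 + ‖s‖) ^ a)
  real : ∀ s : ℂ, F (conj s) = conj (F s)
  conductor : 1 ≤ A
  gamma : ∀ j, 0 < w + 1 / 2 + μ j
  roots : ∀ i, (ρ i).re ≤ w + 1
  value : ∀ s : ℂ, w + 1 < s.re →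
    F s = (∏ i, (s - ρ i)) * ((A : ℂ) ^ (s / 2) * ∏ j, Gammaℝ (s + μ j)) * L s
  fe : ∀ s : ℂ, F (2 * w + 1 - s) = ε * F s
  sign : ε = 1 ∨ ε = -1

/-- the analytic conductor `q(t)` at the height `t` -/
noncomputable def conductor {m : ℕ} (w A : ℝ) (μ : Fin m → ℝ) (t : ℝ) : ℝ :=
  A * ∏ j, (μ j + w + |t| + 3)

/-- `s (s - 1) |d_K|^(s/2) Γ_ℝ(s)^r₁ Γ_ℂ(s)^r₂ ζ_K(s)` -/
noncomputable def xiK (K : Type) [Field K] [NumberField K] (s : ℂ) : ℂ :=
  s * (s - 1) * ((|(discr K : ℝ)| : ℝ) : ℂ) ^ (s / 2) * Gammaℝ s ^ InfinitePlace.nrRealPlaces K *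
    Gammaℂ s ^ InfinitePlace.nrComplexPlaces K * dedekindZeta K s

/-- A family of completed L-functions, given by the completed function `F`, its centre `c` and its analytic
conductor `q`. -/
abbrev Family := (ℂ → ℂ) → ℝ → (ℝ → ℝ) → Prop

/-- all completed tempered Euler products of degree `m`, multiplied with a polynomial of degree `k` -/
def EulerProducts (m k : ℕ) : Family := fun F c q =>
  ∃ (w A : ℝ) (μ : Fin m → ℝ) (ρ : Fin k → ℂ) (ε : ℂ) (L : ℂ → ℂ),
    IsCompleted w A μ ρ ε L F ∧ c = w + 1 / 2 ∧ q = conductor w A μ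

/-- the completed zeta functions of all number fields of degree `m` -/
def NumberFields (m : ℕ) : Family := fun F c q =>
  ∃ (K : Type) (_ : Field K) (_ : NumberField K), Module.finrank ℚ K = m ∧ Differentiable ℂ F ∧
    (∀ s : ℂ, 1 < s.re → F s = xiK K s) ∧ c = 1 / 2 ∧ q = fun t => |(discr K : ℝ)| * (|t| + 4) ^ m

/-- The Laguerre inequalities of the orders `n ≥ B(t)` hold, strictly, at all heights `t`, and all zeros of `F` are on
the line `Re s = c` if and only if those of the orders `n < B(t)` hold. -/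
def Laguerre (F : ℂ → ℂ) (c : ℝ) (B : ℝ → ℝ) : Prop :=
  (∀ (t : ℝ) (n : ℕ), B t ≤ n → 0 < Lag F c n t) ∧
  ((∀ s : ℂ, F s = 0 → s.re = c) ↔ ∀ (t : ℝ) (n : ℕ), (n : ℝ) < B t → 0 ≤ Lag F c n t)

/-- zeros near `t`: all zeros `s` of `F` with `|Im s - t| ≤ h` satisfy `|Re s - c| ≤ b` -/
def Zeros (F : ℂ → ℂ) (c t h b : ℝ) : Prop :=
  ∀ s : ℂ, F s = 0 → |s.im - t| ≤ h → |s.re - c| ≤ b

/-- the Laguerre inequalities of the orders `n ≥ κ log q(t)` hold at the heights in `[t - h, t + h]` -/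
def Orders (F : ℂ → ℂ) (c : ℝ) (q : ℝ → ℝ) (t h κ : ℝ) : Prop :=
  ∀ (t' : ℝ) (n : ℕ), |t' - t| ≤ h → κ * Real.log (q t) ≤ n → 0 ≤ Lag F c n t'

/-- `|F(c + it')| ≤ q(t)^(a - 1/2) |F(c + 1 + it')|` in `[t - h, t + h]`; this means that `|L(c + it')|` is at most
about `q(t)^a` -/
def Growth (F : ℂ → ℂ) (c : ℝ) (q : ℝ → ℝ) (t h a : ℝ) : Prop :=
  ∀ t' : ℝ, |t' - t| ≤ h → ‖F (c + t' * I)‖ ≤ q t ^ (a - 1 / 2) * ‖F (c + 1 + t' * I)‖

/-- The law, uniformly in a family of L-functions and in all heights `t` of large conductor: (1) from the zeros to the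
orders and the growth; (2) from the orders and the growth to the zeros; (3) from the orders alone to the zeros and the
growth; (4) Laguerre inequalities of the orders above `(1/4 + δ) log q(t)`. -/
def Law (K : ℝ) (P : Family) : Prop :=
  (∀ b κ : ℝ, 0 ≤ b → b < 2 * κ → ∃ R : ℝ, ∀ F c q, P F c q → ∀ t : ℝ, R ≤ Real.log (q t) →
    Zeros F c t R b → (∀ n : ℕ, κ * Real.log (q t) ≤ n → 0 < Lag F c n t) ∧ Growth F c q t 1 κ) ∧
  (∀ κ a b : ℝ, 0 ≤ κ → 0 ≤ a → 2 * κ + 2 * a < b → ∃ R : ℝ, ∀ F c q, P F c q → ∀ t : ℝ,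
    R ≤ Real.log (q t) → Orders F c q t R κ → Growth F c q t R a → Zeros F c t 1 b) ∧
  (∀ κ : ℝ, 0 < κ → ∃ R : ℝ, ∀ F c q, P F c q → ∀ t : ℝ,
    R ≤ Real.log (q t) → Orders F c q t R κ → Zeros F c t 1 (K * κ) ∧ Growth F c q t 1 (K * κ)) ∧
  (∀ δ : ℝ, 0 < δ → ∃ C : ℝ, ∀ F c q, P F c q →
    Laguerre F c fun t => (1 / 4 + δ) * Real.log (q t) + C)

open Pool.Agent.Helper68.UL Pool.Agent.Helper68.LF

lemma lag_eq (F : ℂ → ℂ) (c : ℝ) (n : ℕ) (t : ℝ) :
    Pool.Agent.Helper68.UL.Lag (fun z => F (c + z)) n t = Lag F c n t := by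
  unfold Pool.Agent.Helper68.UL.Lag Lag
  congr 1
  funext u
  rw [add_assoc]

lemma laguerre_of {m k : ℕ} {β K c A : ℝ} {μ : Fin m → ℝ} {ρ : Fin k → ℂ} {ε : ℂ} {L F : ℂ → ℂ}
    (h : CL β K c A μ ρ ε L F) {B : ℝ → ℝ}
    (hB : ∀ (t : ℝ) (n : ℕ), B t ≤ n → 0 < Pool.Agent.Helper68.UL.Lag (fun z => F (c + z)) n t) :
    Laguerre F c B := by
  have h1 := h.crit
  refine ⟨fun t n hn => ?_, ?_⟩
  · rw [← lag_eq]
    exact hB t n hn
  · rw [h1]
    constructor
    · intro h2 t n _
      rw [← lag_eq]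
      exact h2 t n
    · intro h2 t n
      rcases lt_or_ge (n : ℝ) (B t) with h3 | h3
      · rw [lag_eq]
        exact h2 t n h3
      · exact (hB t n h3).le

lemma IsCompleted.cl {m k : ℕ} {w A : ℝ} {μ : Fin m → ℝ} {ρ : Fin k → ℂ} {ε : ℂ} {L F : ℂ → ℂ}
    (h : IsCompleted w A μ ρ ε L F) {δ : ℝ} (hδ : 0 < δ) :
    CL (1 / 2 + δ) (‖riemannZeta ((1 + δ : ℝ) : ℂ)‖ ^ m) (w + 1 / 2) A μ ρ ε L F := by
  have hz : riemannZeta ((1 + δ : ℝ) : ℂ) ≠ 0 :=
    riemannZeta_ne_zero_of_one_lt_re (by rw [ofReal_re]; linarith)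
  refine ⟨h.degree, by linarith, pow_pos (norm_pos_iff.2 hz) m, h.conductor, h.gamma,
    fun i => (h.roots i).trans (by linarith), h.entire, h.order, h.real,
    fun s hs => h.value s (by linarith), fun s hs => ?_, fun s => ?_, h.sign⟩
  · exact Eul.bound (m := m) (w := w) h.euler (by linarith) (by linarith)
  · rw [← h.fe s]
    congr 1
    push_cast
    ring

/-- the law for a family of functions of a given class -/
lemma law_of {K0 : ℝ} (hK0 : 0 < K0) (hAL : ∀ (G : ℕ → ℂ → ℂ) (L : ℕ → ℝ) (κ : ℝ),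
      Pool.Agent.Helper75.AL.AG G L → 0 ≤ κ → Pool.Agent.Helper75.AL.ALag κ G L →
        Pool.Agent.Helper75.AL.ALine (K0 * κ) G L ∧ Pool.Agent.Helper75.AL.ANoZ (K0 * κ) G)
    (m k : ℕ) (K : ℝ → ℝ) {P : Family}
    (hP : ∀ F c q, P F c q → ∃ (A : ℝ) (μ : Fin m → ℝ) (ρ : Fin k → ℂ) (ε : ℂ) (L : ℂ → ℂ),
      (∀ δ > 0, CL (1 / 2 + δ) (K δ) c A μ ρ ε L F) ∧
        ∀ t, Pool.Agent.Helper68.UL.cond c A μ t ≤ q t ∧
          q t ≤ Pool.Agent.Helper68.UL.cond c A μ t * 2 ^ m) : Law (4 * K0 + 1) P := by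
  -- the indices
  have hI : ∀ F c q, P F c q → ∀ t : ℝ, ∃ x : Idx m k K, x.F = F ∧ x.c = c ∧ x.t = t ∧
      x.Lam ≤ Real.log (q t) ∧ Real.log (q t) ≤ x.Lam + m * Real.log 2 ∧ 0 < q t := by
    intro F c q h t
    obtain ⟨A, μ, ρ, ε, L, h1, h2⟩ := hP F c q h
    obtain ⟨h3, h4⟩ := h2 t
    have hA : 0 < A := by linarith [(h1 1 one_pos).A1]
    have hpos : 0 < Pool.Agent.Helper68.UL.cond c A μ t := by
      unfold Pool.Agent.Helper68.UL.cond
      refine mul_pos hA (Finset.prod_pos fun j _ => ?_)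
      have := (h1 1 one_pos).μ0 j
      have := abs_nonneg t
      linarith
    have hq : 0 < q t := hpos.trans_le h3
    refine ⟨⟨c, A, μ, ρ, ε, L, F, t, h1⟩, rfl, rfl, rfl, Real.log_le_log hpos h3, ?_, hq⟩
    have h5 := Real.log_le_log hq h4
    rwa [Real.log_mul hpos.ne' (by positivity), Real.log_pow] at h5
  obtain ⟨D, hD⟩ : ∃ D : ℝ, D = (m : ℝ) * Real.log 2 := ⟨_, rfl⟩
  rw [← hD] at hI
  have hD0 : 0 ≤ D := by
    have := Real.log_pos (by norm_num : (1 : ℝ) < 2)
    rw [hD]
    positivity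
  -- translations
  have hZ : ∀ (x : Idx m k K) (R b : ℝ), Zeros x.F x.c x.t R b →
      ∀ z : ℂ, |z.im - x.t| ≤ R → b < |z.re| → x.φ z ≠ 0 := by
    intro x R b hbox z hz1 hz2 h0
    have h4 := hbox (x.c + z) h0 (by rw [add_im, ofReal_im, zero_add]; exact hz1)
    rw [add_re, ofReal_re, add_sub_cancel_left] at h4
    linarith
  have hZ' : ∀ (x : Idx m k K) (b B : ℝ), b ≤ B → (∀ z : ℂ, |z.im - x.t| ≤ 1 → b < |z.re| → x.φ z ≠ 0) →
      Zeros x.F x.c x.t 1 B := by
    intro x b B hbB h s hs hst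
    by_contra hcon
    rw [not_le] at hcon
    refine h (s - x.c) (by simpa using hst) ?_ ?_
    · rw [sub_re, ofReal_re]
      linarith
    · unfold Idx.φ
      rw [add_sub_cancel]
      exact hs
  have hG : ∀ (x : Idx m k K) (t' : ℝ), x.φ (t' * I) = x.F (x.c + t' * I) ∧
      x.φ (1 + t' * I) = x.F (x.c + 1 + t' * I) := by
    intro x t'
    unfold Idx.φ
    rw [← add_assoc]
    exact ⟨rfl, rfl⟩
  -- growth, outwards
  have hGo : ∀ (x : Idx m k K) (q : ℝ → ℝ) (a a' : ℝ), 0 ≤ a' → 0 < q x.t → x.Lam ≤ Real.log (q x.t) →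
      Real.log (q x.t) ≤ x.Lam + D → D / 2 ≤ x.Lam * (a' - a) → BN x a 1 → Growth x.F x.c q x.t 1 a' := by
    intro x q a a' ha' hq h1 h2 h3 h t' ht'
    have h4 := h t' ht'
    rw [(hG x t').1, (hG x t').2] at h4
    rw [mul_comm (q x.t ^ _)]
    refine h4.trans (mul_le_mul_of_nonneg_left ?_ (norm_nonneg _))
    rw [Real.rpow_def_of_pos hq]
    apply Real.exp_le_exp.2
    have h5 : 0 ≤ a' * (Real.log (q x.t) - x.Lam) := mul_nonneg ha' (by linarith)
    nlinarith
  refine ⟨fun b κ hb hbκ => ?_, fun κ a b hκ ha hb => ?_, fun κ hκ => ?_, fun δ hδ => ?_⟩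
  · obtain ⟨R, hR⟩ := direct (Pool.Agent.Helper36.AL.w5 Pool.Agent.Helper8.AL.w2) m k K hb hbκ
    obtain ⟨κ', hκ'⟩ : ∃ κ' : ℝ, κ' = (b / 2 + κ) / 2 := ⟨_, rfl⟩
    obtain ⟨R', hR'⟩ := direct_line m k K (b := b) (κ := κ') hb (by linarith)
    have hd : 0 < κ - κ' := by linarith
    refine ⟨max R 0 + max R' 0 + D + D / 2 / (κ - κ'), fun F c q h t ht hbox => ?_⟩
    obtain ⟨x, rfl, rfl, rfl, h1, h2, h3⟩ := hI F c q h t
    have a1 := le_max_left R 0
    have a2 := le_max_right R 0
    have a3 := le_max_left R' 0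
    have a4 := le_max_right R' 0
    have a5 : 0 ≤ D / 2 / (κ - κ') := by positivity
    have hz := hZ x _ b hbox
    constructor
    · intro n hn
      rw [← lag_eq]
      refine hR x (by linarith) (fun z hz1 hz2 => hz z (by linarith) hz2) n (le_trans ?_ hn)
      have : 0 ≤ κ := by linarith
      gcongr
    · refine hGo x q κ' κ (by linarith) h3 h1 h2 ?_
        (hR' x (by linarith) fun z hz1 hz2 => hz z (by linarith) hz2)
      rw [← div_le_iff₀ hd]
      linarith
  · obtain ⟨e, he⟩ : ∃ e : ℝ, e = (b - 2 * κ - 2 * a) / 8 := ⟨_, rfl⟩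
    have he0 : 0 < e := by linarith
    obtain ⟨R, hR⟩ := sharp Pool.Agent.Helper8.AL.w2 Pool.Agent.Helper8.AL.w3 m k K (a := a + e)
      (κ := κ + e) (b := b) (by linarith) (by linarith) (by linarith)
    refine ⟨max R 0 + D + (κ + a) * D / e, fun F c q h t ht hO hg => ?_⟩
    obtain ⟨x, rfl, rfl, rfl, h1, h2, h3⟩ := hI F c q h t
    have a1 := le_max_left R 0
    have a2 := le_max_right R 0
    have a5 : 0 ≤ (κ + a) * D / e := by positivity
    have a6 : (κ + a) * D ≤ x.Lam * e := by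
      rw [← div_le_iff₀ he0]
      linarith
    have a7 : 0 ≤ κ * D := by positivity
    have a8 : 0 ≤ a * D := by positivity
    refine hZ' x b b le_rfl (hR x (by linarith) ?_ ?_)
    · intro t' n ht' hn
      have h6 := hO t' n (by linarith) (le_trans (by nlinarith) hn)
      rw [← lag_eq] at h6
      exact h6
    · intro t' ht'
      have h6 := hg t' (by linarith)
      rw [(hG x t').1, (hG x t').2]
      rw [mul_comm (q x.t ^ _)] at h6
      refine h6.trans (mul_le_mul_of_nonneg_left ?_ (norm_nonneg _))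
      rw [Real.rpow_def_of_pos h3]
      apply Real.exp_le_exp.2
      have h7 : a * Real.log (q x.t) ≤ a * (x.Lam + D) := by gcongr
      nlinarith
  · obtain ⟨R, hR⟩ := conv' hK0 hAL m k K (κ := 2 * κ) (by positivity)
    refine ⟨max R 0 + 2 * D + D / 2 / κ, fun F c q h t ht hL => ?_⟩
    obtain ⟨x, rfl, rfl, rfl, h1, h2, h3⟩ := hI F c q h t
    have hR0 := le_max_left R 0
    have hR1 := le_max_right R 0
    have hq2 : 0 ≤ D / 2 / κ := by positivity
    obtain ⟨h4, h5⟩ := hR x (by linarith) fun t' n ht' hn => by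
      have h6 := hL t' n (by linarith) (le_trans (by nlinarith) hn)
      rw [← lag_eq] at h6
      exact h6
    have hKκ : 0 < K0 * κ := by positivity
    refine ⟨hZ' x _ _ (by nlinarith) h4, hGo x q _ _ (by positivity) h3 h1 h2 ?_ h5⟩
    have e : (4 * K0 + 1) * κ - 2 * K0 * (2 * κ) = κ := by ring
    rw [e, ← div_le_iff₀ hκ]
    linarith
  · obtain ⟨C, hC⟩ := CL.lag m k (β := 1 / 2 + δ) (K := K δ) (δ := δ) (by linarith) hδ
    refine ⟨C, fun F c q h => ?_⟩
    obtain ⟨A, μ, ρ, ε, L, h1, h2⟩ := hP F c q h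
    refine laguerre_of (h1 δ hδ) fun t n hn => hC _ A μ ρ ε L F (h1 δ hδ) t n (le_trans ?_ hn)
    have hA : 0 < A := by linarith [(h1 1 one_pos).A1]
    have hpos : 0 < Pool.Agent.Helper68.UL.cond c A μ t := by
      unfold Pool.Agent.Helper68.UL.cond
      refine mul_pos hA (Finset.prod_pos fun j _ => ?_)
      have := (h1 1 one_pos).μ0 j
      have := abs_nonneg t
      linarith
    have h3 := Real.log_le_log hpos (h2 t).1
    have h4 : (1 / 2 + δ + δ) / 2 = 1 / 4 + δ := by ring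
    rw [h4]
    have := mul_le_mul_of_nonneg_left h3 (show 0 ≤ 1 / 4 + δ by linarith)
    linarith

/-- `F` is determined by its values for `Re s > 1` -/
lemma eq_of_right {F G : ℂ → ℂ} (hF : Differentiable ℂ F) (hG : Differentiable ℂ G)
    (h : ∀ s : ℂ, 1 < s.re → F s = G s) : F = G := by
  have h1 : AnalyticOnNhd ℂ F Set.univ := fun z _ => hF.analyticAt z
  have h2 : AnalyticOnNhd ℂ G Set.univ := fun z _ => hG.analyticAt z
  refine h1.eq_of_eventuallyEq (z₀ := 2) h2 ?_
  have ho : IsOpen {w : ℂ | 1 < w.re} := isOpen_lt continuous_const continuous_re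
  filter_upwards [ho.mem_nhds (show (2 : ℂ) ∈ {w : ℂ | 1 < w.re} by simp)] with w hw
  exact h w hw

/-- **Laguerre inequalities, zeros and size of L-functions.** There is an absolute constant `K > 0` for which the
law holds for the completed tempered Euler products of each degree, and, unconditionally, for the zeta functions of
the number fields of each degree (which have a continuation). -/
theorem result : (∃ K : ℝ, 0 < K ∧ (∀ m k : ℕ, Law K (EulerProducts m k)) ∧
      ∀ m : ℕ, Law K (NumberFields m)) ∧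
    ∀ (K : Type) [Field K] [NumberField K],
      ∃ F : ℂ → ℂ, Differentiable ℂ F ∧ ∀ s : ℂ, 1 < s.re → F s = xiK K s := by
  constructor
  · obtain ⟨K0, hK0, hAL⟩ := Pool.Agent.Helper75.AL.al_all
    refine ⟨4 * K0 + 1, by positivity, fun m k => ?_, fun m => ?_⟩
    · refine law_of hK0 hAL m k (fun δ => ‖riemannZeta ((1 + δ : ℝ) : ℂ)‖ ^ m) ?_
      rintro F c q ⟨w, A, μ, ρ, ε, L, h, rfl, rfl⟩
      refine ⟨A, μ, ρ, ε, L, fun δ hδ => h.cl hδ, fun t => ?_⟩
      have hA : 0 < A := by linarith [h.conductor]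
      have hpos : ∀ j, 0 < w + 1 / 2 + μ j + |t| + 2 := fun j => by
        have := h.gamma j
        have := abs_nonneg t
        linarith
      constructor
      · unfold Pool.Agent.Helper68.UL.cond conductor
        refine mul_le_mul_of_nonneg_left (Finset.prod_le_prod (fun j _ => (hpos j).le) fun j _ => ?_) hA.le
        linarith
      · unfold Pool.Agent.Helper68.UL.cond conductor
        rw [mul_assoc]
        refine mul_le_mul_of_nonneg_left ?_ hA.le
        have e : (2 : ℝ) ^ m = ∏ _j : Fin m, (2 : ℝ) := by simp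
        rw [e, ← Finset.prod_mul_distrib]
        refine Finset.prod_le_prod (fun j _ => ?_) fun j _ => ?_
        · have := hpos j
          linarith
        · have := h.gamma j
          have := abs_nonneg t
          linarith
    · refine law_of hK0 hAL m 2 (fun δ => Real.exp (2 * (m * SL (1 + δ)))) ?_
      rintro F c q ⟨K, _, _, hm, hF, hval, rfl, rfl⟩
      subst hm
      refine ⟨|(discr K : ℝ)|, muK (InfinitePlace.nrRealPlaces K + InfinitePlace.nrComplexPlaces K)
        (Module.finrank ℚ K), ![0, 1], 1, dedekindZeta K, fun δ hδ => ?_, fun t => ?_⟩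
      · obtain ⟨F', hF', hval'⟩ := nf_CL K hδ
        have e : F = F' := eq_of_right hF hF'.ent fun s hs => by
          rw [hval s hs, hval' s hs]
          rfl
        rw [e]
        exact hF'
      · obtain ⟨F', hF', -⟩ := nf_CL K one_pos
        have hA : 0 < |(discr K : ℝ)| := by linarith [hF'.A1]
        have hle : ∀ j, 0 < 1 / 2 + muK (InfinitePlace.nrRealPlaces K +
            InfinitePlace.nrComplexPlaces K) (Module.finrank ℚ K) j + |t| + 2 ∧
            1 / 2 + muK (InfinitePlace.nrRealPlaces K +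
            InfinitePlace.nrComplexPlaces K) (Module.finrank ℚ K) j + |t| + 2 ≤ |t| + 4 ∧
            |t| + 4 ≤ (1 / 2 + muK (InfinitePlace.nrRealPlaces K +
            InfinitePlace.nrComplexPlaces K) (Module.finrank ℚ K) j + |t| + 2) * 2 := by
          intro j
          have := abs_nonneg t
          unfold muK
          split_ifs <;> refine ⟨?_, ?_, ?_⟩ <;> linarith
        constructor
        · unfold Pool.Agent.Helper68.UL.cond
          refine mul_le_mul_of_nonneg_left ?_ hA.le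
          calc _ ≤ ∏ _j : Fin (Module.finrank ℚ K), (|t| + 4) :=
                Finset.prod_le_prod (fun j _ => (hle j).1.le) fun j _ => (hle j).2.1
            _ = _ := by rw [Finset.prod_const, Finset.card_univ, Fintype.card_fin]
        · unfold Pool.Agent.Helper68.UL.cond
          rw [mul_assoc]
          refine mul_le_mul_of_nonneg_left ?_ hA.le
          have e : (2 : ℝ) ^ Module.finrank ℚ K = ∏ _j : Fin (Module.finrank ℚ K), (2 : ℝ) := by simp
          have e2 : (|t| + 4) ^ Module.finrank ℚ K = ∏ _j : Fin (Module.finrank ℚ K), (|t| + 4) := by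
            simp
          rw [e, e2, ← Finset.prod_mul_distrib]
          refine Finset.prod_le_prod (fun j _ => ?_) fun j _ => (hle j).2.2
          have := abs_nonneg t
          linarith
  · intro K _ _
    obtain ⟨F, hF, hval⟩ := nf_CL K one_pos
    exact ⟨F, hF.ent, hval⟩

end Pool.Agent.Results.MP_7193be_nt.LaguerreConductor
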